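import Mathlib
import Pool.Agent.H15.G.R_seed8.H932R3.Finals

set_option autoImplicit false

/-!
# Arbitrary bounded multiplicities: definitions and statements of the tasks (call of helper932)
-/

namespace Pool.Agent.H932R7

open Polynomial Pool.Agent.H932R2 Pool.Agent.H932R3

/-- The ideals of fat points with the multiplicities `w`. -/
def PF (K : Type) [Field K] {ι : Type} (w : ι → ℕ) : Set (Ideal K[X][X]) :=
  {J | ∃ (c : ι → K) (γ : ι → K[X]), J = vIdeal 1 w c γ}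

/-- The trapezoid with `k` rows of lengths `s * (k - 1 - l) + t`. -/
def Zt (k s t : ℕ) : Finset (ℕ × ℕ) := rowsF k fun l => s * (k - 1 - l) + t

/-- The number of conditions. -/
def Aw {ι : Type} [Fintype ι] (w : ι → ℕ) : ℕ := ∑ a, (w a + 1).choose 2

/-- The waste. -/
def Wst : ℕ → ℕ
  | 0 => 0
  | k + 1 => Wst k + (k + 1) * (k - 1)

/-- Stability of the family of all fat points with given multiplicities. -/
def P_STAB : Prop := ∀ (K : Type) [Field K] (ι : Type) (w : ι → ℕ), Stable (PF K w)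

/-- The rank in terms of the dimension of the kernel. -/
def P_RK : Prop := ∀ (K : Type) [Field K] (J : Ideal K[X][X]) (M : Finset (ℕ × ℕ)) (n : ℕ),
  RkI J (↑M : Set (ℕ × ℕ)) n ↔
    n + Module.finrank K ↥(mspan K (↑M : Set (ℕ × ℕ)) ⊓ Submodule.restrictScalars K J) ≤ M.card

/-- The compression of a trapezoid. -/
def P_TRAP : Prop := ∀ k s t κ B : ℕ, k ≤ B →
  DomY (s + κ) B (↑(Zt k s (t + κ * (k - 1))) : Set (ℕ × ℕ)) (↑(Zt k (s + 2 * κ) t) : Set (ℕ × ℕ))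

/-- Cardinalities and inclusions. -/
def P_CARDS : Prop :=
  (∀ k s : ℕ, EE s k = Zt k s s) ∧
  (∀ k s n : ℕ, 0 < k → n ≤ s →
    (Zt k s n).card = (EE (s - n) (k - 1)).card + n * (k + 1).choose 2) ∧
  (∀ k s t t' : ℕ, t ≤ t' → Zt k s t ⊆ Zt k s t') ∧
  (∀ k s t κ : ℕ, (Zt k s (t + κ * (k - 1))).card = (Zt k (s + 2 * κ) t).card)

/-- Units modulo the ideal of a fat point. -/
def P_UNIT : Prop := ∀ (K : Type) [Field K] (c : K) (γ g : K[X]) (w k : ℕ) (F : K[X][X]),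
  g.eval c ≠ 0 → C (g ^ k) * F ∈ cIdeal (fun _ : Fin 1 => c) γ w →
    F ∈ cIdeal (fun _ : Fin 1 => c) γ w

/-- The substitution `y ↦ g(x) y`. -/
def P_SUBST : Prop := ∀ (K : Type) [Field K] (c : K) (γ g : K[X]) (w : ℕ) (f : K[X][X]),
  f ∈ cIdeal (fun _ : Fin 1 => c) (g * γ) w →
    f.comp (C g * X) ∈ cIdeal (fun _ : Fin 1 => c) γ w

/-- Points of multiplicity `k` on the line `y = 0`. -/
def P_DIV : Prop := ∀ (K : Type) [Field K] (σ : Type) [Fintype σ] (x : σ → K),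
  Function.Injective x → ∀ (k : ℕ) (f : K[X][X]),
    (∀ j, f ∈ cIdeal (fun _ : Fin 1 => x j) 0 k) →
      ∀ l < k, (∏ j, (X - C (x j)) : K[X]) ^ (k - l) ∣ f.coeff l

/-- Removal of the points of the largest multiplicity. -/
def P_BLOCK : Prop := ∀ (K : Type) [Field K] [Infinite K] (ι : Type) [Fintype ι] (w : ι → ℕ)
  (k s n N : ℕ), 0 < k → (∀ a, w a ≤ k) → n = Nat.card {a // w a = k} → n ≤ s →
    RkS (PF K (fun a : {a // w a < k} => w a)) (↑(EE (s - n) (k - 1)) : Set (ℕ × ℕ)) N →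
      RkS (PF K w) (↑(Zt k s n) : Set (ℕ × ℕ)) (N + n * (k + 1).choose 2)

/-- Splitting off the points of multiplicity `k`. -/
def P_SPLIT : Prop := ∀ (ι : Type) [Fintype ι] (w : ι → ℕ) (k : ℕ), (∀ a, w a ≤ k) →
  ∀ [Fintype {a // w a < k}],
  Aw w = Aw (fun a : {a // w a < k} => w a) + Nat.card {a // w a = k} * (k + 1).choose 2

/-- Independence for a triangle of slope `s`. -/
def P_IND : Prop := ∀ (K : Type) [Field K] [CharZero K] (k : ℕ) (ι : Type) [Fintype ι]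
  (w : ι → ℕ) (s : ℕ), (∀ a, w a ≤ k) → Aw w + Wst k ≤ s * (k + 1).choose 2 →
    RkS (PF K w) (↑(EE s k) : Set (ℕ × ℕ)) (Aw w)

/-- Emptiness for a triangle of slope `s`. -/
def P_FULL : Prop := ∀ (K : Type) [Field K] [CharZero K] (k : ℕ) (ι : Type) [Fintype ι]
  (w : ι → ℕ) (s : ℕ), (∀ a, w a ≤ k) → s * (k + 1).choose 2 + Wst k ≤ Aw w →
    RkS (PF K w) (↑(EE s k) : Set (ℕ × ℕ)) (EE s k).card

/-- From a triangle of slope `r` to the monomials of degree at most `d`. -/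
def P_MAST : Prop := ∀ (K : Type) [Field K] [CharZero K] (𝓘 : Set (Ideal K[X][X])), Stable 𝓘 →
  ∀ r m : ℕ, 10 ≤ r → 0 < m → (m : ℝ) ≤ r - 6 * Real.sqrt r + 11 →
    (∀ N d : ℕ, RkS 𝓘 (↑(EE r m) : Set (ℕ × ℕ)) N → r * m * (m + 1) ≤ (d + 1) * (d + 2) →
      RkS 𝓘 (Tset d) N) ∧
    (∀ d : ℕ, RkS 𝓘 (↑(EE r m) : Set (ℕ × ℕ)) (EE r m).card →
      (d + 1) * (d + 2) ≤ r * m * (m + 1) → RkS 𝓘 (Tset d) (Tfin d).card)

/-- The closed form of the waste. -/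
def P_WST : Prop := ∀ k : ℕ, 1 ≤ k → Wst k + (k + 1).choose 2 = 2 * (k + 1).choose 3 + 1

/-- The condition on the size. -/
def Big (m X : ℕ) : Prop := (m : ℝ) * (m + 1) * (m + 6 * Real.sqrt m + 10) ≤ X

/-- The ranks in degree `d`. -/
def P_RANKS : Prop := ∀ (K : Type) [Field K] [CharZero K] (n : ℕ) (w : Fin n → ℕ) (m d : ℕ),
  0 < m → (∀ a, w a ≤ m) → Big m ((d + 1) * (d + 2)) →
    (Aw w + 2 * (m + 1).choose 3 ≤ (d + 2).choose 2 → RkS (PF K w) (Tset d) (Aw w)) ∧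
    ((d + 2).choose 2 + 2 * (m + 1).choose 3 ≤ Aw w → RkS (PF K w) (Tset d) (Tfin d).card)

/-- From ranks over `ℚ` to general points over an extension. -/
def P_HOP : Prop := ∀ (L : Type) [Field L] [CharZero L] (n : ℕ) (w : Fin n → ℕ)
  (T : Set (ℕ × ℕ)) (N : ℕ), RkS (PF ℚ w) T N →
    ∃ F : MvPolynomial (Fin n × Fin 2) ℚ, F ≠ 0 ∧ ∀ P : Fin n × Fin 2 → L,
      MvPolynomial.aeval P F ≠ 0 →
      RkI (vIdeal 1 w (fun a => P (a, 0)) (fun a => C (P (a, 1)))) T N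

/-- The main theorem. -/
def P_FIN : Prop := ∀ (L : Type) [Field L] [CharZero L] (n : ℕ) (w : Fin n → ℕ) (m : ℕ),
  0 < m → (∀ a, w a ≤ m) →
    ∃ F : MvPolynomial (Fin n × Fin 2) ℚ, F ≠ 0 ∧ ∀ P : Fin n → Fin 2 → L,
      MvPolynomial.aeval (fun ij : Fin n × Fin 2 => P ij.1 ij.2) F ≠ 0 →
        ∀ d : ℕ, (Big m ((d + 1) * (d + 2)) ∨ Big m (Aw w)) →
          (Aw w + 2 * (m + 1).choose 3 ≤ (d + 2).choose 2 ∨
            (d + 2).choose 2 + 2 * (m + 1).choose 3 ≤ Aw w) → ExpDim L w P d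

end Pool.Agent.H932R7
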