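import Mathlib
import Pool.Agent.H15.G.R_seed8.H932R7.Stubs

set_option autoImplicit false

/-!
# No exceptional degree when the smallest multiplicity is frequent: statements (call of helper932)
-/

namespace Pool.Agent.H932R7

open Polynomial Pool.Agent.H932R2 Pool.Agent.H932R3

/-- Removal of the points of multiplicity `k` from a set with at most `k + 1` rows. -/
def P_BLK : Prop := ∀ (K : Type) [Field K] [Infinite K] (ι : Type) [Fintype ι] (w : ι → ℕ)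
  (k n N : ℕ) (D : ℕ → ℕ), 0 < k → (∀ a, w a ≤ k) → n = Nat.card {a // w a = k} →
    (∀ l ≤ k, n * (k - l) ≤ D l) →
    RkS (PF K (fun a : {a // w a < k} => w a))
      (↑(rowsF (k + 1) fun l => D l - n * (k - l)) : Set (ℕ × ℕ)) N →
      RkS (PF K w) (↑(rowsF (k + 1) D) : Set (ℕ × ℕ)) (N + n * (k + 1).choose 2)

/-- From a balanced shape of slope `r` to degree `d`. -/
def P_START : Prop := ∀ (K : Type) [Field K] [CharZero K] (𝓘 : Set (Ideal K[X][X])), Stable 𝓘 →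
  ∀ r m d N u t j : ℕ, 10 ≤ r → ((m + 1 : ℕ) : ℝ) ≤ r - 6 * Real.sqrt r + 11 →
    20 ≤ (d + 1) * (d + 2) → (d + 1) * (d + 2) ≤ r * (m + 1) * (m + 2) →
    t < r → j ≤ u + 1 → sz r u t j = (d + 1) * (d + 2) →
      RkS 𝓘 (↑(Lfin r u t j) : Set (ℕ × ℕ)) N → RkS 𝓘 (Tset d) N

/-- The chain of balanced shapes. -/
def P_CH : Prop := ∀ (K : Type) [Field K] [CharZero K] (𝓘 : Set (Ideal K[X][X])), Stable 𝓘 →
  ∀ s κ u t j u' t' j' N : ℕ, 0 < s → Good s u t j → t' < s + 2 * κ → j' ≤ u' + 1 →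
    sz (s + 2 * κ) u' t' j' = sz s u t j →
      RkS 𝓘 (↑(Lfin (s + 2 * κ) u' t' j') : Set (ℕ × ℕ)) N →
        RkS 𝓘 (↑(Lfin s u t j) : Set (ℕ × ℕ)) N

/-- The induction. -/
def P_X : Prop := ∀ (K : Type) [Field K] [CharZero K] (k₀ k : ℕ), 0 < k₀ → k₀ ≤ k →
  ∀ (ι : Type) [Fintype ι] (w : ι → ℕ), (∀ a, k₀ ≤ w a ∧ w a ≤ k) →
    ∀ n₀ N s u t j : ℕ, n₀ = Nat.card {a // w a = k₀} → 0 < s → Good s u t j →
      sz s u t j = 2 * N → s * (k * (k + 1)) ≤ 2 * N → s % 2 = Fintype.card ι % 2 →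
      2 * N < 2 * Aw w + k₀ * (k₀ + 1) → 2 * Aw w < 2 * N + k₀ * (k₀ + 1) →
      k * (k + 1) * (k + 2) + k₀ * (k₀ + 1) ≤ n₀ * (k₀ * (k₀ + 1)) →
        RkS (PF K w) (↑(Lfin s u t j) : Set (ℕ × ℕ)) (min N (Aw w))

/-- Ranks in degree `d`, near the critical degree. -/
def P_R3 : Prop := ∀ (K : Type) [Field K] [CharZero K] (k₀ m : ℕ), 0 < k₀ → k₀ ≤ m →
  ∀ (ι : Type) [Fintype ι] (w : ι → ℕ), (∀ a, k₀ ≤ w a ∧ w a ≤ m) →
    ∀ n₀ d : ℕ, n₀ = Nat.card {a // w a = k₀} → Big m ((d + 1) * (d + 2)) →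
      2 * (d + 2).choose 2 < 2 * Aw w + k₀ * (k₀ + 1) →
      2 * Aw w < 2 * (d + 2).choose 2 + k₀ * (k₀ + 1) →
      m * (m + 1) * (m + 2) + k₀ * (k₀ + 1) ≤ n₀ * (k₀ * (k₀ + 1)) →
        RkS (PF K w) (Tset d) (min ((d + 2).choose 2) (Aw w))

/-- Comparison of two systems of multiplicities. -/
def P_TR : Prop := ∀ (K : Type) [Field K] [Infinite K] (ι ι' : Type) [Fintype ι] [Fintype ι']
  (w : ι → ℕ) (w' : ι' → ℕ) (e : {a // w a ≠ 0} ↪ ι'), (∀ a : {a // w a ≠ 0}, w a ≤ w' (e a)) →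
    ∀ M : Finset (ℕ × ℕ),
      (RkS (PF K w') (↑M : Set (ℕ × ℕ)) (Aw w') → RkS (PF K w) (↑M : Set (ℕ × ℕ)) (Aw w)) ∧
      (∀ N : ℕ, RkS (PF K w) (↑M : Set (ℕ × ℕ)) N → RkS (PF K w') (↑M : Set (ℕ × ℕ)) N)

/-- Ranks in every degree. -/
def P_R4 : Prop := ∀ (K : Type) [Field K] [CharZero K] (k₀ m : ℕ), 0 < k₀ → k₀ ≤ m →
  ∀ (n : ℕ) (w : Fin n → ℕ), (∀ a, w a = 0 ∨ (k₀ ≤ w a ∧ w a ≤ m)) →
    ∀ n₀ d : ℕ, n₀ = Nat.card {a // w a = k₀} → Big m ((d + 1) * (d + 2)) →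
      2 * (m * (m + 1) * (m + 2)) + k₀ * (k₀ + 1) ≤ n₀ * (k₀ * (k₀ + 1)) →
        (Aw w ≤ (d + 2).choose 2 → RkS (PF K w) (Tset d) (Aw w)) ∧
        ((d + 2).choose 2 ≤ Aw w → RkS (PF K w) (Tset d) (Tfin d).card)

end Pool.Agent.H932R7
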