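import Mathlib
import Pool.Agent.H15.G.R_seed8.H932R7.Stubs

set_option autoImplicit false

namespace Pool.Agent.H932R7

open Polynomial Pool.Agent.H932R2 Pool.Agent.H932R3

theorem T_SPLIT : P_SPLIT := by
  intro ι _ w k hw _
  classical
  unfold Aw
  have h1 : ∑ a : ι, (w a + 1).choose 2 =
      ∑ a ∈ Finset.univ.filter (fun a => w a < k), (w a + 1).choose 2 +
        ∑ a ∈ Finset.univ.filter (fun a => ¬ w a < k), (w a + 1).choose 2 :=
    (Finset.sum_filter_add_sum_filter_not _ _ _).symm
  rw [h1]
  congr 1
  · rw [Finset.sum_subtype (Finset.univ.filter (fun a => w a < k)) (p := fun a => w a < k)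
      (fun a => by simp) (fun a => (w a + 1).choose 2)]
  · have h2 : ∀ a ∈ Finset.univ.filter (fun a => ¬ w a < k), (w a + 1).choose 2 =
        (k + 1).choose 2 := by
      intro a ha
      rw [Finset.mem_filter] at ha
      have := hw a
      have : w a = k := by omega
      rw [this]
    rw [Finset.sum_congr rfl h2, Finset.sum_const, smul_eq_mul]
    congr 1
    rw [Nat.card_eq_fintype_card, Fintype.card_subtype]
    congr 1
    ext a
    simp only [Finset.mem_filter, Finset.mem_univ, true_and]
    have := hw a
    omega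

theorem T_WST : P_WST := by
  intro k hk
  induction k, hk using Nat.le_induction with
  | base => decide
  | succ k hk ih =>
    have e1 : Wst (k + 1) = Wst k + (k + 1) * (k - 1) := rfl
    have e2 : (k + 1 + 1).choose 2 = (k + 1).choose 1 + (k + 1).choose 2 := Nat.choose_succ_succ _ _
    have e3 : (k + 1 + 1).choose 3 = (k + 1).choose 2 + (k + 1).choose 3 := Nat.choose_succ_succ _ _
    have e4 : (k + 1).choose 1 = k + 1 := Nat.choose_one_right _
    have e5 : 2 * (k + 1).choose 2 = (k + 1) * k := by
      rw [Nat.choose_two_right, Nat.add_sub_cancel]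
      exact Nat.mul_div_cancel' (Nat.even_mul_pred_self (k + 1)).two_dvd
    obtain ⟨j, rfl⟩ : ∃ j, k = j + 1 := ⟨k - 1, by omega⟩
    rw [e1, e2, e3, e4]
    simp only [Nat.add_sub_cancel] at *
    nlinarith

end Pool.Agent.H932R7
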