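import Mathlib
import Pool.Agent.H15.G.R_seed8.H932R7.Stubs3

set_option autoImplicit false

namespace Pool.Agent.H932R7

open Polynomial Pool.Agent.H932R2 Pool.Agent.H932R3

namespace R3h

theorem two_choose' (d : ℕ) : 2 * (d + 2).choose 2 = (d + 1) * (d + 2) := by
  have h := Nat.add_one_mul_choose_eq (d + 1) 1
  rw [Nat.choose_one_right] at h
  have h' : (d + 1 + 1) * (d + 1) = (d + 2).choose 2 * 2 := h
  linarith

/-- the choice of the slope -/
theorem choice (P D c : ℕ) (hP : 0 < P) (hD : P ≤ D) :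
    ∃ r : ℕ, r * P ≤ D ∧ D < (r + 2) * P ∧ r % 2 = c % 2 := by
  have h0 : D / P * P ≤ D := Nat.div_mul_le_self D P
  have h1 : D < (D / P + 1) * P := by
    have := Nat.lt_div_mul_add (a := D) hP
    linarith
  have h2 : 1 ≤ D / P := (Nat.one_le_div_iff hP).2 hD
  by_cases h : (D / P) % 2 = c % 2
  · refine ⟨D / P, h0, ?_, h⟩
    nlinarith
  · obtain ⟨q, hq⟩ : ∃ q, D / P = q + 1 := ⟨D / P - 1, by omega⟩
    rw [hq] at h0 h1 h
    refine ⟨q, ?_, ?_, by omega⟩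
    · nlinarith
    · have : q + 1 + 1 = q + 2 := rfl
      rw [this] at h1
      exact h1

theorem real_ineq (m r : ℕ) (hm : 0 < m) (h : (m : ℝ) + 6 * Real.sqrt m + 8 < r) :
    16 ≤ r ∧ m ≤ r ∧ ((m + 1 : ℕ) : ℝ) ≤ r - 6 * Real.sqrt r + 11 := by
  have hm1 : (1 : ℝ) ≤ m := by exact_mod_cast hm
  have hx1 : 1 ≤ Real.sqrt m := by
    rw [show (1 : ℝ) = Real.sqrt 1 by simp]
    exact Real.sqrt_le_sqrt hm1
  have hx2 : Real.sqrt m ^ 2 = m := Real.sq_sqrt (by positivity)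
  have hy0 : 0 ≤ Real.sqrt (r : ℝ) := Real.sqrt_nonneg _
  have hy2 : Real.sqrt (r : ℝ) ^ 2 = r := Real.sq_sqrt (by positivity)
  set x := Real.sqrt m with hx
  set y := Real.sqrt (r : ℝ) with hy
  refine ⟨?_, ?_, ?_⟩
  · have : (15 : ℝ) < r := by nlinarith
    have h' : 15 < r := by exact_mod_cast this
    omega
  · have : (m : ℝ) ≤ r := by nlinarith
    exact_mod_cast this
  · push_cast
    rw [← hx2, ← hy2]
    rw [← hx2, ← hy2] at h
    rcases le_total y (x + 3) with h3 | h3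
    · nlinarith
    · nlinarith

end R3h

theorem T_R3 (hST : P_STAB) (hS : P_START) (hX : P_X) : P_R3 := by
  intro K _ _ k₀ m hk₀ hkm ι _ w hw n₀ d hn₀ hBig h1 h2 h3
  have hm : 0 < m := lt_of_lt_of_le hk₀ hkm
  have hch := R3h.two_choose' d
  have hP : 0 < m * (m + 1) := by positivity
  unfold Big at hBig
  have hm1 : (1 : ℝ) ≤ m := by exact_mod_cast hm
  have hx0 : 0 ≤ Real.sqrt (m : ℝ) := Real.sqrt_nonneg _
  have hPr : (2 : ℝ) ≤ (m : ℝ) * (m + 1) := by nlinarith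
  have hDr : (m : ℝ) * (m + 1) * 11 ≤ (((d + 1) * (d + 2) : ℕ) : ℝ) := by
    refine le_trans ?_ hBig
    have : (11 : ℝ) ≤ m + 6 * Real.sqrt m + 10 := by linarith
    nlinarith
  have hPD' : m * (m + 1) * 11 ≤ (d + 1) * (d + 2) := by exact_mod_cast hDr
  have hPD : m * (m + 1) ≤ (d + 1) * (d + 2) := by omega
  obtain ⟨r, hr1, hr2, hr3⟩ := R3h.choice (m * (m + 1)) ((d + 1) * (d + 2)) (Fintype.card ι) hP hPD
  have hr2r : (((d + 1) * (d + 2) : ℕ) : ℝ) < ((r : ℝ) + 2) * ((m : ℝ) * (m + 1)) := by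
    have : (((d + 1) * (d + 2) : ℕ) : ℝ) < (((r + 2) * (m * (m + 1)) : ℕ) : ℝ) := by
      exact_mod_cast hr2
    calc (((d + 1) * (d + 2) : ℕ) : ℝ) < (((r + 2) * (m * (m + 1)) : ℕ) : ℝ) := this
      _ = _ := by push_cast; ring
  have hbig2 : (m : ℝ) + 6 * Real.sqrt m + 8 < r := by
    have h4 : ((m : ℝ) * (m + 1)) * (m + 6 * Real.sqrt m + 10) < ((m : ℝ) * (m + 1)) * ((r : ℝ) + 2) := by
      calc ((m : ℝ) * (m + 1)) * (m + 6 * Real.sqrt m + 10) ≤ _ := hBig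
        _ < _ := hr2r
        _ = _ := by ring
    have h5 := lt_of_mul_lt_mul_left h4 (by positivity)
    linarith
  obtain ⟨h16, hmr, hreal⟩ := R3h.real_ineq m r hm hbig2
  obtain ⟨u, t, j, ht, hj, hsz⟩ := exists_param r ((d + 2).choose 2) (by omega)
  have hD20 : 20 ≤ (d + 1) * (d + 2) := by
    have : 2 ≤ m * (m + 1) := by nlinarith
    omega
  have hDr2 : (d + 1) * (d + 2) ≤ r * (m + 1) * (m + 2) := by
    have : (r + 2) * (m * (m + 1)) ≤ r * (m + 1) * (m + 2) := by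
      have h6 : (r + 2) * m ≤ r * (m + 2) := by nlinarith
      calc (r + 2) * (m * (m + 1)) = ((r + 2) * m) * (m + 1) := by ring
        _ ≤ (r * (m + 2)) * (m + 1) := Nat.mul_le_mul_right _ h6
        _ = _ := by ring
    omega
  have hgood : Good r u t j := by
    refine good_of_sz ht hj ?_
    rw [hsz, hch]
    refine lt_of_lt_of_le hr2 ?_
    have h7 : m * (m + 1) ≤ r * (r + 1) := Nat.mul_le_mul hmr (by omega)
    calc (r + 2) * (m * (m + 1)) ≤ (r + 2) * (r * (r + 1)) := Nat.mul_le_mul_left _ h7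
      _ ≤ r * (r + 3) * (r + 4) := by nlinarith
  refine hS K (PF K w) (hST K ι w) r m d _ u t j (by omega) hreal hD20 hDr2 ht hj (by rw [hsz, hch]) ?_
  refine hX K k₀ m hk₀ hkm ι w hw n₀ ((d + 2).choose 2) r u t j hn₀ (by omega) hgood hsz ?_ hr3
    h1 h2 h3
  rw [hch]
  exact hr1

end Pool.Agent.H932R7
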