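import Mathlib
import Pool.Agent.H15.G.R_seed8.H932R7.Stubs3

set_option autoImplicit false

namespace Pool.Agent.H932R7

open Polynomial Pool.Agent.H932R2 Pool.Agent.H932R3

namespace CHXh

theorem rk_zero (K : Type) [Field K] {ι : Type} (w : ι → ℕ) (M : Set (ℕ × ℕ)) :
    RkS (PF K w) M 0 :=
  ⟨vIdeal 1 w (fun _ => 0) (fun _ => 0), ⟨_, _, rfl⟩, Fin.elim0, fun i => i.elim0,
    fun _ _ i => i.elim0⟩

theorem c2 (k : ℕ) : 2 * (k + 1).choose 2 = k * (k + 1) := by
  rw [Nat.choose_two_right, Nat.add_sub_cancel, mul_comm k (k + 1), mul_comm,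
    Nat.div_mul_cancel (by
      have := (Nat.even_mul_succ_self k).two_dvd
      rwa [mul_comm] at this)]

theorem aw_ge {ι : Type} [Fintype ι] (w : ι → ℕ) (k₀ : ℕ) :
    Nat.card {a // w a = k₀} * (k₀ + 1).choose 2 ≤ Aw w := by
  classical
  rw [Nat.card_eq_fintype_card, Fintype.card_subtype]
  unfold Aw
  calc (Finset.univ.filter fun a => w a = k₀).card * (k₀ + 1).choose 2
      = ∑ a ∈ Finset.univ.filter (fun a => w a = k₀), (w a + 1).choose 2 := by
        rw [Finset.sum_congr rfl (g := fun _ => (k₀ + 1).choose 2)]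
        · rw [Finset.sum_const, smul_eq_mul]
        · intro a ha
          rw [(Finset.mem_filter.mp ha).2]
    _ ≤ ∑ a, (w a + 1).choose 2 :=
        Finset.sum_le_sum_of_subset (Finset.filter_subset _ _)

theorem aw_const {ι : Type} [Fintype ι] (w : ι → ℕ) (k₀ : ℕ) (h : ∀ a, w a = k₀) :
    Aw w = Fintype.card ι * (k₀ + 1).choose 2 := by
  unfold Aw
  rw [Finset.sum_congr rfl (g := fun _ => (k₀ + 1).choose 2) (fun a _ => by rw [h a]),
    Finset.sum_const, smul_eq_mul, Finset.card_univ]

theorem card_sub {ι : Type} [Fintype ι] (w : ι → ℕ) (k₀ k : ℕ) (h : k₀ ≤ k) :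
    Nat.card {a : {a // w a < k + 1} // w a = k₀} = Nat.card {a // w a = k₀} := by
  refine Nat.card_congr ⟨fun a => ⟨a.1.1, a.2⟩, fun a => ⟨⟨a.1, ?_⟩, a.2⟩, ?_, ?_⟩
  · have := a.2
    omega
  · intro a
    rfl
  · intro a
    rfl

theorem card_split {ι : Type} [Fintype ι] (w : ι → ℕ) (k : ℕ) (h : ∀ a, w a ≤ k + 1)
    [Fintype {a // w a < k + 1}] :
    Fintype.card ι = Fintype.card {a // w a < k + 1} + Nat.card {a // w a = k + 1} := by
  classical
  rw [Nat.card_eq_fintype_card]
  have h1 := Fintype.card_subtype_compl (fun a => w a < k + 1)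
  have h2 : Fintype.card {a // ¬ w a < k + 1} = Fintype.card {a // w a = k + 1} :=
    Fintype.card_congr (Equiv.subtypeEquivRight fun a => by
      have := h a
      omega)
  have h3 : Fintype.card {a // w a < k + 1} ≤ Fintype.card ι := Fintype.card_subtype_le _
  rw [h2] at h1
  omega

/-- the arithmetic of the base -/
theorem base_le {n s q N : ℕ} (h1 : s * q ≤ 2 * N) (h2 : 2 * N < n * q + q) : s ≤ n := by
  by_contra hc
  push Not at hc
  have : (n + 1) * q ≤ s * q := Nat.mul_le_mul_right _ hc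
  have h3 : (n + 1) * q = n * q + q := by ring
  omega

/-- the choice of the slope -/
theorem slope {s C N : ℕ} (hC : 0 < C) (h : s * (2 * C) ≤ 2 * N) :
    ∃ κ, (s + 2 * κ) * C ≤ N ∧ N < (s + 2 * κ) * C + 2 * C := by
  have h1 : s * C ≤ N := by
    have : s * (2 * C) = 2 * (s * C) := by ring
    omega
  obtain ⟨d, hd⟩ : ∃ d, N = s * C + d := ⟨N - s * C, by omega⟩
  refine ⟨d / (2 * C), ?_, ?_⟩
  · have h2 := Nat.div_mul_le_self d (2 * C)
    have h3 : (s + 2 * (d / (2 * C))) * C = s * C + d / (2 * C) * (2 * C) := by ring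
    omega
  · have h2 := Nat.div_add_mod d (2 * C)
    have h4 := Nat.mod_lt d (show 0 < 2 * C by omega)
    have h3 : (s + 2 * (d / (2 * C))) * C = s * C + 2 * C * (d / (2 * C)) := by ring
    omega

theorem claim {S n k n₀ q C N A A' : ℕ} (hA : A = A' + n * C)
    (h1 : N < S * C + 2 * C) (h2 : 2 * A < 2 * N + q) (h3 : n₀ * q ≤ 2 * A')
    (h4 : 2 * C * (k + 3) + q ≤ n₀ * q) : n + k + 1 < S := by
  by_contra hc
  push Not at hc
  have h5 : S * C ≤ (n + k + 1) * C := Nat.mul_le_mul_right _ hc
  have e1 : (n + k + 1) * C = n * C + k * C + C := by ring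
  have e2 : 2 * C * (k + 3) = 2 * (k * C) + 6 * C := by ring
  rw [e1] at h5
  rw [e2] at h4
  omega

end CHXh

open CHXh

theorem T_X (hST : P_STAB) (hCH : P_CH) (hBK : P_BLK) (hSP : P_SPLIT) : P_X := by
  intro K _ _ k₀ k hk₀ hk
  induction k, hk using Nat.le_induction with
  | base =>
    intro ι _ w hw n₀ N s u t j hn₀ hs hg hsz hsk hpar hN1 hN2 hsize
    have hwk : ∀ a, w a = k₀ := fun a => le_antisymm (hw a).2 (hw a).1
    have hA := aw_const w k₀ hwk
    set n := Fintype.card ι with hn
    have hc2 := c2 k₀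
    set C := (k₀ + 1).choose 2 with hC
    rw [← hc2] at hsk hN1 hN2 hsize
    have hA2 : 2 * Aw w = n * (2 * C) := by rw [hA]; ring
    have hsn : s ≤ n := base_le hsk (by rw [hA2] at hN1; exact hN1)
    obtain ⟨κ, hκ⟩ : ∃ κ, n = s + 2 * κ := ⟨(n - s) / 2, by omega⟩
    have hn0 : 0 < n := by omega
    obtain ⟨u', t', j', ht', hj', hsz'⟩ := exists_param n N hn0
    have hcard : n = Nat.card {a // w a = k₀} := by
      rw [Nat.card_eq_fintype_card, hn]
      exact (Fintype.card_congr (Equiv.subtypeUnivEquiv hwk)).symm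
    have hfull : RkS (PF K w) (↑(Lfin n k₀ 0 0) : Set (ℕ × ℕ)) (Aw w) := by
      have h1 := hBK K ι w k₀ n 0 (fun l => n * (k₀ - l) + 0 + if l < 0 then 1 else 0) hk₀
        (fun a => (hw a).2) hcard (fun l _ => by simp) (rk_zero K _ _)
      rw [hA]
      rw [← hC, Nat.zero_add] at h1
      exact h1
    have hsz0 : sz n k₀ 0 0 = 2 * Aw w := by
      rw [hA2, hc2]
      unfold sz
      ring
    have hcardL : (Lfin n k₀ 0 0).card = Aw w := by
      have := card_Lfin (s := n) (u := k₀) (t := 0) (j := 0) (by omega)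
      omega
    have hcardL' : (Lfin n u' t' j').card = N := by
      have := card_Lfin (s := n) (u := u') (t := t') (j := j') hj'
      omega
    have hmain : RkS (PF K w) (↑(Lfin n u' t' j') : Set (ℕ × ℕ)) (min N (Aw w)) := by
      rcases le_total N (Aw w) with hle | hle
      · rw [min_eq_left hle]
        have hsub := Lfin_subset (s := n) (u := u') (t := t') (j := j') (u' := k₀) (t' := 0)
          (j' := 0) ht' hj' hn0 (by omega) (by omega)
        rw [← hcardL] at hfull
        have := RkS.subset hfull hsub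
        rwa [hcardL'] at this
      · rw [min_eq_right hle]
        have hsub := Lfin_subset (s := n) (u := k₀) (t := 0) (j := 0) (u' := u') (t' := t')
          (j' := j') hn0 (by omega) ht' hj' (by omega)
        exact RkS.mono (by exact_mod_cast hsub) hfull
    rw [hκ] at hmain ht' hsz'
    exact hCH K (PF K w) (hST K ι w) s κ u t j u' t' j' _ hs hg ht' hj' (by rw [hsz', hsz])
      hmain
  | succ k hk ih =>
    intro ι _ w hw n₀ N s u t j hn₀ hs hg hsz hsk hpar hN1 hN2 hsize
    have hc2 := c2 (k + 1)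
    have hq := c2 k₀
    have hsp := hSP ι w (k + 1) (fun a => (hw a).2)
    have hcs := card_split w k (fun a => (hw a).2)
    have hcn := card_sub w k₀ k hk
    have hge := aw_ge (fun a : {a // w a < k + 1} => w a) k₀
    rw [hcn, ← hn₀] at hge
    have hih := ih {a // w a < k + 1} (fun a => w a)
      (fun a => ⟨(hw a).1, Nat.lt_succ_iff.mp a.2⟩) n₀
    rw [hcn] at hih
    set n := Nat.card {a // w a = k + 1} with hn
    set A := Aw w with hA
    set A' := Aw (fun a : {a // w a < k + 1} => w a) with hA'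
    set q := k₀ * (k₀ + 1) with hqd
    have hgq : n₀ * q ≤ 2 * A' := by
      rw [← hq]
      have : n₀ * (2 * (k₀ + 1).choose 2) = 2 * (n₀ * (k₀ + 1).choose 2) := by ring
      omega
    have hC : 0 < (k + 1 + 1).choose 2 := Nat.choose_pos (by omega)
    set C := (k + 1 + 1).choose 2 with hCd
    rw [← hc2] at hsk hsize
    obtain ⟨κ, hκ1, hκ2⟩ := slope hC hsk
    obtain ⟨S, hS⟩ : ∃ S, S = s + 2 * κ := ⟨_, rfl⟩
    rw [← hS] at hκ1 hκ2
    have hcl : n + k + 1 < S := claim hsp hκ2 hN2 hgq (by
      have : k + 1 + 2 = k + 3 := rfl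
      rw [this] at hsize
      exact hsize)
    obtain ⟨R, hR⟩ : ∃ R, N = S * C + R := ⟨N - S * C, by omega⟩
    have hRlt : R < (k + 1) * (k + 2) := by
      have : (k + 1) * (k + 2) = 2 * C := hc2.symm
      omega
    obtain ⟨t', ht'd⟩ : ∃ t', t' = R / (k + 2) := ⟨_, rfl⟩
    obtain ⟨j', hj'd⟩ : ∃ j', j' = R % (k + 2) := ⟨_, rfl⟩
    have ht' : t' < k + 1 := by
      rw [ht'd]
      exact Nat.div_lt_of_lt_mul (by rw [mul_comm]; exact hRlt)
    have hj' : j' < k + 2 := by
      rw [hj'd]
      exact Nat.mod_lt _ (by omega)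
    have hRe : (k + 2) * t' + j' = R := by
      rw [ht'd, hj'd]
      exact Nat.div_add_mod _ _
    have hszS : ∀ σ : ℕ, sz σ (k + 1) t' j' = 2 * (σ * C + R) := by
      intro σ
      rw [← hRe]
      unfold sz
      have : σ * (k + 1) * (k + 1 + 1) = 2 * (σ * C) := by
        calc σ * (k + 1) * (k + 1 + 1) = σ * ((k + 1) * (k + 1 + 1)) := by ring
          _ = σ * (2 * C) := by rw [hc2]
          _ = 2 * (σ * C) := by ring
      rw [this]
      ring
    obtain ⟨S', hS'⟩ : ∃ S', S = n + S' := ⟨S - n, by omega⟩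
    obtain ⟨N', hN'⟩ : ∃ N', N' = S' * C + R := ⟨_, rfl⟩
    have hNN : N = N' + n * C := by
      rw [hR, hN', hS']
      ring
    have hrest : RkS (PF K (fun a : {a // w a < k + 1} => w a))
        (↑(Lfin S' (k + 1) t' j') : Set (ℕ × ℕ)) (min N' A') := by
      refine hih N' S' (k + 1) t' j' hn₀ (by omega) ⟨by omega, by omega, by omega⟩ ?_ ?_ ?_ ?_
        ?_ ?_
      · rw [hszS, hN']
      · have h1 : S' * (k * (k + 1)) ≤ S' * (2 * C) := by
          refine Nat.mul_le_mul_left _ ?_
          rw [hc2]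
          exact Nat.mul_le_mul (by omega) (by omega)
        have h2 : S' * (2 * C) = 2 * (S' * C) := by ring
        omega
      · omega
      · omega
      · omega
      · refine le_trans ?_ hsize
        have h1 : k * (k + 1) * (k + 2) ≤ 2 * C * (k + 1 + 2) := by
          rw [hc2]
          exact Nat.mul_le_mul (Nat.mul_le_mul (by omega) (by omega)) (by omega)
        omega
    have hblk := hBK K ι w (k + 1) n (min N' A')
      (fun l => S * (k + 1 - l) + t' + if l < j' then 1 else 0) (by omega)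
      (fun a => (hw a).2) hn (fun l _ => by
        have : n * (k + 1 - l) ≤ S * (k + 1 - l) := Nat.mul_le_mul_right _ (by omega)
        show n * (k + 1 - l) ≤ S * (k + 1 - l) + t' + if l < j' then 1 else 0
        omega)
      (by
        have he : (fun l => (S * (k + 1 - l) + t' + if l < j' then 1 else 0) -
            n * (k + 1 - l)) = fun l => S' * (k + 1 - l) + t' + if l < j' then 1 else 0 := by
          funext l
          rw [hS', Nat.add_mul]
          omega
        rw [he]
        exact hrest)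
    have hmin : min N' A' + n * (k + 1 + 1).choose 2 = min N A := by
      rw [← hCd]
      omega
    rw [hmin] at hblk
    have hmain : RkS (PF K w) (↑(Lfin S (k + 1) t' j') : Set (ℕ × ℕ)) (min N A) := hblk
    rw [hS] at hmain
    refine hCH K (PF K w) (hST K ι w) s κ u t j (k + 1) t' j' _ hs hg (by omega) (by omega) ?_
      hmain
    rw [← hS, hszS, hsz, hR]

end Pool.Agent.H932R7
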