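import Mathlib
import Pool.Agent.H15.G.R_seed8.H932R7.Stubs3
import Pool.Agent.H15.G.R_seed8.H932R7.TX
import Pool.Agent.H15.G.R_seed8.H932R7.TR3
import Pool.Agent.H15.G.R_seed8.H932R7.TR4

set_option autoImplicit false

/-!
# The induction with a condition on consecutive multiplicities

The proofs of `T_X2` and `T_R32` are adapted from those of `T_X` (helper56) and `T_R3` (helper293).
-/

namespace Pool.Agent.H932R7

open Polynomial Pool.Agent.H932R2 Pool.Agent.H932R3

/-- For every point of multiplicity more than `k₀` there are enough points of smaller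
multiplicity. -/
def Cnd {ι : Type} [Fintype ι] (w : ι → ℕ) (k₀ c : ℕ) : Prop :=
  ∀ a, k₀ < w a → w a * (w a + 1) * (w a + c) + k₀ * (k₀ + 1) ≤
    2 * ∑ b ∈ Finset.univ.filter (fun b => w b < w a), (w b + 1).choose 2

/-- The induction. -/
def P_X2 : Prop := ∀ (K : Type) [Field K] [CharZero K] (k₀ k : ℕ), 0 < k₀ → k₀ ≤ k →
  ∀ (ι : Type) [Fintype ι] (w : ι → ℕ), (∀ a, k₀ ≤ w a ∧ w a ≤ k) →
    ∀ N s u t j : ℕ, 0 < s → Good s u t j →
      sz s u t j = 2 * N → s * (k * (k + 1)) ≤ 2 * N → s % 2 = Fintype.card ι % 2 →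
      2 * N < 2 * Aw w + k₀ * (k₀ + 1) → 2 * Aw w < 2 * N + k₀ * (k₀ + 1) →
      Cnd w k₀ 2 →
        RkS (PF K w) (↑(Lfin s u t j) : Set (ℕ × ℕ)) (min N (Aw w))

open CHXh

theorem sum_restrict {ι : Type} [Fintype ι] (w : ι → ℕ) (k c : ℕ) (hc : c ≤ k)
    [Fintype {a // w a < k}] :
    ∑ b ∈ (Finset.univ : Finset {a // w a < k}).filter (fun b => w b.1 < c), (w b.1 + 1).choose 2 =
      ∑ b ∈ Finset.univ.filter (fun b => w b < c), (w b + 1).choose 2 := by
  classical
  rw [Finset.sum_filter, Finset.sum_filter]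
  have h1 : ∑ a : {a // w a < k}, (if w a.1 < c then (w a.1 + 1).choose 2 else 0) =
      ∑ a ∈ Finset.univ.filter (fun a => w a < k), (if w a < c then (w a + 1).choose 2 else 0) :=
    (Finset.sum_subtype (Finset.univ.filter fun a => w a < k) (by simp)
      (fun a => if w a < c then (w a + 1).choose 2 else 0)).symm
  rw [h1, Finset.sum_filter]
  refine Finset.sum_congr rfl fun a _ => ?_
  by_cases h : w a < c
  · rw [if_pos h, if_pos (by omega)]
  · rw [if_neg h]
    split_ifs <;> rfl

theorem claim2 {S n k q C N A A' : ℕ} (hA : A = A' + n * C)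
    (h1 : N < S * C + 2 * C) (h2 : 2 * A < 2 * N + q)
    (h4 : 2 * C * (k + 3) + q ≤ 2 * A') : n + k + 1 < S := by
  by_contra hc
  push Not at hc
  have h5 : S * C ≤ (n + k + 1) * C := Nat.mul_le_mul_right _ hc
  have e1 : (n + k + 1) * C = n * C + k * C + C := by ring
  have e2 : 2 * C * (k + 3) = 2 * (k * C) + 6 * C := by ring
  rw [e1] at h5
  rw [e2] at h4
  omega

theorem T_X2 (hST : P_STAB) (hCH : P_CH) (hBK : P_BLK) (hSP : P_SPLIT) : P_X2 := by
  intro K _ _ k₀ k hk₀ hk
  induction k, hk using Nat.le_induction with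
  | base =>
    intro ι _ w hw N s u t j hs hg hsz hsk hpar hN1 hN2 hsize
    have hwk : ∀ a, w a = k₀ := fun a => le_antisymm (hw a).2 (hw a).1
    have hA := aw_const w k₀ hwk
    set n := Fintype.card ι with hn
    have hc2 := c2 k₀
    set C := (k₀ + 1).choose 2 with hC
    rw [← hc2] at hsk hN1 hN2
    have hA2 : 2 * Aw w = n * (2 * C) := by rw [hA]; ring
    have hsn : s ≤ n := base_le hsk (by rw [hA2] at hN1; exact hN1)
    obtain ⟨κ, hκ⟩ : ∃ κ, n = s + 2 * κ := ⟨(n - s) / 2, by omega⟩
    have hn0 : 0 < n := by omega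
    obtain ⟨u', t', j', ht', hj', hsz'⟩ := exists_param n N hn0
    have hcard : n = Nat.card {a // w a = k₀} := by
      rw [Nat.card_eq_fintype_card, hn]
      exact (Fintype.card_congr (Equiv.subtypeUnivEquiv hwk)).symm
    have hfull : RkS (PF K w) (↑(Lfin n k₀ 0 0) : Set (ℕ × ℕ)) (Aw w) := by
      have h1 := hBK K ι w k₀ n 0 (fun l => n * (k₀ - l) + 0 + if l < 0 then 1 else 0) hk₀
        (fun a => (hw a).2) hcard (fun l _ => by simp) (rk_zero K _ _)
      rw [hA]
      rw [← hC, Nat.zero_add] at h1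
      exact h1
    have hsz0 : sz n k₀ 0 0 = 2 * Aw w := by
      rw [hA2, hc2]
      unfold sz
      ring
    have hcardL : (Lfin n k₀ 0 0).card = Aw w := by
      have := card_Lfin (s := n) (u := k₀) (t := 0) (j := 0) (by omega)
      omega
    have hcardL' : (Lfin n u' t' j').card = N := by
      have := card_Lfin (s := n) (u := u') (t := t') (j := j') hj'
      omega
    have hmain : RkS (PF K w) (↑(Lfin n u' t' j') : Set (ℕ × ℕ)) (min N (Aw w)) := by
      rcases le_total N (Aw w) with hle | hle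
      · rw [min_eq_left hle]
        have hsub := Lfin_subset (s := n) (u := u') (t := t') (j := j') (u' := k₀) (t' := 0)
          (j' := 0) ht' hj' hn0 (by omega) (by omega)
        rw [← hcardL] at hfull
        have := RkS.subset hfull hsub
        rwa [hcardL'] at this
      · rw [min_eq_right hle]
        have hsub := Lfin_subset (s := n) (u := k₀) (t := 0) (j := 0) (u' := u') (t' := t')
          (j' := j') hn0 (by omega) ht' hj' (by omega)
        exact RkS.mono (by exact_mod_cast hsub) hfull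
    rw [hκ] at hmain ht' hsz'
    exact hCH K (PF K w) (hST K ι w) s κ u t j u' t' j' _ hs hg ht' hj' (by rw [hsz', hsz])
      hmain
  | succ k hk ih =>
    intro ι _ w hw N s u t j hs hg hsz hsk hpar hN1 hN2 hsize
    classical
    by_cases hex : ∃ a, w a = k + 1
    swap
    · have hw' : ∀ a, k₀ ≤ w a ∧ w a ≤ k := fun a => ⟨(hw a).1, by
        have h1 := (hw a).2
        have h2 : w a ≠ k + 1 := fun h => hex ⟨a, h⟩
        omega⟩
      refine ih ι w hw' N s u t j hs hg hsz ?_ hpar hN1 hN2 hsize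
      refine le_trans (Nat.mul_le_mul_left _ ?_) hsk
      exact Nat.mul_le_mul (by omega) (by omega)
    obtain ⟨a₁, ha₁⟩ := hex
    have hc2 := c2 (k + 1)
    have hq := c2 k₀
    have hsp := hSP ι w (k + 1) (fun a => (hw a).2)
    have hcs := card_split w k (fun a => (hw a).2)
    have hih := ih {a // w a < k + 1} (fun a => w a)
      (fun a => ⟨(hw a).1, Nat.lt_succ_iff.mp a.2⟩)
    have hcnd : Cnd (fun a : {a // w a < k + 1} => w a) k₀ 2 := by
      intro a ha
      have h1 := hsize a.1 ha
      rwa [← sum_restrict w (k + 1) (w a.1) a.2.le] at h1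
    have hAe : Aw (fun a : {a // w a < k + 1} => w a) =
        ∑ b ∈ Finset.univ.filter (fun b => w b < k + 1), (w b + 1).choose 2 := by
      rw [← sum_restrict w (k + 1) (k + 1) le_rfl]
      unfold Aw
      rw [Finset.filter_true_of_mem fun b _ => b.2]
    have hsz1 := hsize a₁ (by omega)
    rw [ha₁, ← hAe] at hsz1
    set n := Nat.card {a // w a = k + 1} with hn
    set A := Aw w with hA
    set A' := Aw (fun a : {a // w a < k + 1} => w a) with hA'
    set q := k₀ * (k₀ + 1) with hqd
    have hC : 0 < (k + 1 + 1).choose 2 := Nat.choose_pos (by omega)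
    set C := (k + 1 + 1).choose 2 with hCd
    rw [← hc2] at hsk hsz1
    obtain ⟨κ, hκ1, hκ2⟩ := slope hC hsk
    obtain ⟨S, hS⟩ : ∃ S, S = s + 2 * κ := ⟨_, rfl⟩
    rw [← hS] at hκ1 hκ2
    have hcl : n + k + 1 < S := claim2 hsp hκ2 hN2 (by
      have : k + 1 + 2 = k + 3 := rfl
      rw [this] at hsz1
      exact hsz1)
    obtain ⟨R, hR⟩ : ∃ R, N = S * C + R := ⟨N - S * C, by omega⟩
    have hRlt : R < (k + 1) * (k + 2) := by
      have : (k + 1) * (k + 2) = 2 * C := hc2.symm
      omega
    obtain ⟨t', ht'd⟩ : ∃ t', t' = R / (k + 2) := ⟨_, rfl⟩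
    obtain ⟨j', hj'd⟩ : ∃ j', j' = R % (k + 2) := ⟨_, rfl⟩
    have ht' : t' < k + 1 := by
      rw [ht'd]
      exact Nat.div_lt_of_lt_mul (by rw [mul_comm]; exact hRlt)
    have hj' : j' < k + 2 := by
      rw [hj'd]
      exact Nat.mod_lt _ (by omega)
    have hRe : (k + 2) * t' + j' = R := by
      rw [ht'd, hj'd]
      exact Nat.div_add_mod _ _
    have hszS : ∀ σ : ℕ, sz σ (k + 1) t' j' = 2 * (σ * C + R) := by
      intro σ
      rw [← hRe]
      unfold sz
      have : σ * (k + 1) * (k + 1 + 1) = 2 * (σ * C) := by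
        calc σ * (k + 1) * (k + 1 + 1) = σ * ((k + 1) * (k + 1 + 1)) := by ring
          _ = σ * (2 * C) := by rw [hc2]
          _ = 2 * (σ * C) := by ring
      rw [this]
      ring
    obtain ⟨S', hS'⟩ : ∃ S', S = n + S' := ⟨S - n, by omega⟩
    obtain ⟨N', hN'⟩ : ∃ N', N' = S' * C + R := ⟨_, rfl⟩
    have hNN : N = N' + n * C := by
      rw [hR, hN', hS']
      ring
    have hrest : RkS (PF K (fun a : {a // w a < k + 1} => w a))
        (↑(Lfin S' (k + 1) t' j') : Set (ℕ × ℕ)) (min N' A') := by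
      refine hih N' S' (k + 1) t' j' (by omega) ⟨by omega, by omega, by omega⟩ ?_ ?_ ?_ ?_
        ?_ hcnd
      · rw [hszS, hN']
      · have h1 : S' * (k * (k + 1)) ≤ S' * (2 * C) := by
          refine Nat.mul_le_mul_left _ ?_
          rw [hc2]
          exact Nat.mul_le_mul (by omega) (by omega)
        have h2 : S' * (2 * C) = 2 * (S' * C) := by ring
        omega
      · omega
      · omega
      · omega
    have hblk := hBK K ι w (k + 1) n (min N' A')
      (fun l => S * (k + 1 - l) + t' + if l < j' then 1 else 0) (by omega)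
      (fun a => (hw a).2) hn (fun l _ => by
        have : n * (k + 1 - l) ≤ S * (k + 1 - l) := Nat.mul_le_mul_right _ (by omega)
        show n * (k + 1 - l) ≤ S * (k + 1 - l) + t' + if l < j' then 1 else 0
        omega)
      (by
        have he : (fun l => (S * (k + 1 - l) + t' + if l < j' then 1 else 0) -
            n * (k + 1 - l)) = fun l => S' * (k + 1 - l) + t' + if l < j' then 1 else 0 := by
          funext l
          rw [hS', Nat.add_mul]
          omega
        rw [he]
        exact hrest)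
    have hmin : min N' A' + n * (k + 1 + 1).choose 2 = min N A := by
      rw [← hCd]
      omega
    rw [hmin] at hblk
    have hmain : RkS (PF K w) (↑(Lfin S (k + 1) t' j') : Set (ℕ × ℕ)) (min N A) := hblk
    rw [hS] at hmain
    refine hCH K (PF K w) (hST K ι w) s κ u t j (k + 1) t' j' _ hs hg (by omega) (by omega) ?_
      hmain
    rw [← hS, hszS, hsz, hR]


end Pool.Agent.H932R7
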