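import Mathlib
import Pool.Agent.H15.G.R_seed8.H932R7.X3
import Pool.Agent.H15.G.R_seed8.H932R7.TSW

set_option autoImplicit false

/-!
# Ranks in every degree, with a threshold

The choice of the slope is adapted from `T_R3` (helper293).
-/

namespace Pool.Agent.H932R7

open Polynomial Pool.Agent.H932R2 Pool.Agent.H932R3

theorem start_shape (hS : P_START) (K : Type) [Field K] [CharZero K]
    (𝓘 : Set (Ideal K[X][X])) (hst : Stable 𝓘) (m d : ℕ) (hm : 0 < m)
    (hBig : Big m ((d + 1) * (d + 2))) (c : ℕ) :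
    ∃ r u t j : ℕ, 0 < r ∧ Good r u t j ∧ sz r u t j = 2 * (d + 2).choose 2 ∧
      r * (m * (m + 1)) ≤ 2 * (d + 2).choose 2 ∧ r % 2 = c % 2 ∧
      ∀ X : ℕ, RkS 𝓘 (↑(Lfin r u t j) : Set (ℕ × ℕ)) X → RkS 𝓘 (Tset d) X := by
  have hch := R3h.two_choose' d
  have hP : 0 < m * (m + 1) := by positivity
  unfold Big at hBig
  have hm1 : (1 : ℝ) ≤ m := by exact_mod_cast hm
  have hx0 : 0 ≤ Real.sqrt (m : ℝ) := Real.sqrt_nonneg _
  have hPr : (2 : ℝ) ≤ (m : ℝ) * (m + 1) := by nlinarith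
  have hDr : (m : ℝ) * (m + 1) * 11 ≤ (((d + 1) * (d + 2) : ℕ) : ℝ) := by
    refine le_trans ?_ hBig
    have : (11 : ℝ) ≤ m + 6 * Real.sqrt m + 10 := by linarith
    nlinarith
  have hPD' : m * (m + 1) * 11 ≤ (d + 1) * (d + 2) := by exact_mod_cast hDr
  have hPD : m * (m + 1) ≤ (d + 1) * (d + 2) := by omega
  obtain ⟨r, hr1, hr2, hr3⟩ := R3h.choice (m * (m + 1)) ((d + 1) * (d + 2)) c hP hPD
  have hr2r : (((d + 1) * (d + 2) : ℕ) : ℝ) < ((r : ℝ) + 2) * ((m : ℝ) * (m + 1)) := by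
    have : (((d + 1) * (d + 2) : ℕ) : ℝ) < (((r + 2) * (m * (m + 1)) : ℕ) : ℝ) := by
      exact_mod_cast hr2
    calc (((d + 1) * (d + 2) : ℕ) : ℝ) < (((r + 2) * (m * (m + 1)) : ℕ) : ℝ) := this
      _ = _ := by push_cast; ring
  have hbig2 : (m : ℝ) + 6 * Real.sqrt m + 8 < r := by
    have h4 : ((m : ℝ) * (m + 1)) * (m + 6 * Real.sqrt m + 10) <
        ((m : ℝ) * (m + 1)) * ((r : ℝ) + 2) := by
      calc ((m : ℝ) * (m + 1)) * (m + 6 * Real.sqrt m + 10) ≤ _ := hBig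
        _ < _ := hr2r
        _ = _ := by ring
    have h5 := lt_of_mul_lt_mul_left h4 (by positivity)
    linarith
  obtain ⟨h16, hmr, hreal⟩ := R3h.real_ineq m r hm hbig2
  obtain ⟨u, t, j, ht, hj, hsz⟩ := exists_param r ((d + 2).choose 2) (by omega)
  have hD20 : 20 ≤ (d + 1) * (d + 2) := by
    have : 2 ≤ m * (m + 1) := by nlinarith
    omega
  have hDr2 : (d + 1) * (d + 2) ≤ r * (m + 1) * (m + 2) := by
    have : (r + 2) * (m * (m + 1)) ≤ r * (m + 1) * (m + 2) := by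
      have h6 : (r + 2) * m ≤ r * (m + 2) := by nlinarith
      calc (r + 2) * (m * (m + 1)) = ((r + 2) * m) * (m + 1) := by ring
        _ ≤ (r * (m + 2)) * (m + 1) := Nat.mul_le_mul_right _ h6
        _ = _ := by ring
    omega
  have hgood : Good r u t j := by
    refine good_of_sz ht hj ?_
    rw [hsz, hch]
    refine lt_of_lt_of_le hr2 ?_
    have h7 : m * (m + 1) ≤ r * (r + 1) := Nat.mul_le_mul hmr (by omega)
    calc (r + 2) * (m * (m + 1)) ≤ (r + 2) * (r * (r + 1)) := Nat.mul_le_mul_left _ h7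
      _ ≤ r * (r + 3) * (r + 4) := by nlinarith
  refine ⟨r, u, t, j, by omega, hgood, hsz, by rw [hch]; exact hr1, hr3, fun X hX => ?_⟩
  exact hS K 𝓘 hst r m d X u t j (by omega) hreal hD20 hDr2 ht hj (by rw [hsz, hch]) hX

/-- Ranks in degree `d`. -/
theorem rank_thr (hST : P_STAB) (hS : P_START) (hX : P_X3) (K : Type) [Field K] [CharZero K]
    (k₁ m : ℕ) (hk₁ : 0 < k₁) (hkm : k₁ ≤ m) (ι : Type) [Fintype ι] (w : ι → ℕ)
    (hw : ∀ a, w a ≤ m) (d q : ℕ) (hBig : Big m ((d + 1) * (d + 2)))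
    (hq : 2 * Aw w < 2 * (d + 2).choose 2 + q) (hc : Cnq w k₁ 2 q) :
    (Aw w + 2 * (k₁ + 1).choose 3 ≤ (d + 2).choose 2 → RkS (PF K w) (Tset d) (Aw w)) ∧
    ((d + 2).choose 2 + 2 * (k₁ + 1).choose 3 ≤ Aw w →
      RkS (PF K w) (Tset d) ((d + 2).choose 2)) := by
  have hW := T_WST k₁ hk₁
  constructor
  · intro h
    obtain ⟨δ, hδ⟩ : ∃ δ, (d + 2).choose 2 = Aw w + δ := ⟨(d + 2).choose 2 - Aw w, by omega⟩
    obtain ⟨r, u, t, j, hr, hg, hsz, hrm, hpar, hfin⟩ := start_shape hS K (PF K w) (hST K ι w) m d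
      (by omega) hBig (Nhigh w k₁ + (Alow w k₁ + δ) / (k₁ + 1).choose 2)
    exact hfin _ ((hX K k₁ m hk₁ hkm ι w hw q _ r u t j δ hr hg hsz hrm hq hc (by omega)).1
      hδ hpar)
  · intro h
    obtain ⟨δ, hδ⟩ : ∃ δ, Aw w = (d + 2).choose 2 + δ := ⟨Aw w - (d + 2).choose 2, by omega⟩
    obtain ⟨r, u, t, j, hr, hg, hsz, hrm, hpar, hfin⟩ := start_shape hS K (PF K w) (hST K ι w) m d
      (by omega) hBig (Nhigh w k₁ +
        (Alow w k₁ - δ + (k₁ + 1).choose 2 - 1) / (k₁ + 1).choose 2)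
    exact hfin _ ((hX K k₁ m hk₁ hkm ι w hw q _ r u t j δ hr hg hsz hrm hq hc (by omega)).2
      hδ hpar)

/-- Ranks in every degree. -/
theorem rank_thr2 (hST : P_STAB) (hS : P_START) (hX : P_X3) (hTR : P_TR) (K : Type) [Field K]
    [CharZero K] (k₁ m : ℕ) (hk₁ : 0 < k₁) (hkm : k₁ ≤ m) (n : ℕ) (w : Fin n → ℕ)
    (hw : ∀ a, w a ≤ m) (d : ℕ) (hBig : Big m ((d + 1) * (d + 2)))
    (hc : Cnq w k₁ 3 (4 * (k₁ + 1).choose 3 + k₁ * (k₁ + 1))) :
    (Aw w + 2 * (k₁ + 1).choose 3 ≤ (d + 2).choose 2 → RkS (PF K w) (Tset d) (Aw w)) ∧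
    ((d + 2).choose 2 + 2 * (k₁ + 1).choose 3 ≤ Aw w →
      RkS (PF K w) (Tset d) ((d + 2).choose 2)) := by
  classical
  have hk2 : 0 < k₁ * (k₁ + 1) := by positivity
  constructor
  · intro h
    refine (rank_thr hST hS hX K k₁ m hk₁ hkm (Fin n) w hw d
      (4 * (k₁ + 1).choose 3 + k₁ * (k₁ + 1)) hBig (by omega) ?_).1 h
    intro a ha
    refine le_trans (Nat.add_le_add_right (Nat.mul_le_mul_left _ (by omega)) _) (hc a ha)
  · intro h
    obtain ⟨N, hN⟩ : ∃ N, N = (d + 2).choose 2 := ⟨_, rfl⟩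
    obtain ⟨W, hW⟩ : ∃ W, W = 2 * (k₁ + 1).choose 3 := ⟨_, rfl⟩
    have hW4 : 4 * (k₁ + 1).choose 3 = 2 * W := by omega
    rw [hW4] at hc
    rw [← hN, ← hW] at h
    obtain ⟨U, hU1, hU2, hU3⟩ := choose_subset w (fun a => (w a + 1).choose 2) (N + W) h
    have hAU : Aw (fun a : {a // a ∈ U} => w a) = ∑ a ∈ U, (w a + 1).choose 2 := by
      unfold Aw
      exact (Finset.sum_subtype U (fun _ => Iff.rfl) (fun a => (w a + 1).choose 2)).symm
    have hfil : ∀ κ : ℕ, ∑ b ∈ (Finset.univ : Finset {a // a ∈ U}).filter (fun b => w b.1 < κ),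
        (w b.1 + 1).choose 2 = ∑ b ∈ U.filter (fun b => w b < κ), (w b + 1).choose 2 := by
      intro κ
      rw [Finset.sum_filter, Finset.sum_filter]
      exact (Finset.sum_subtype U (fun _ => Iff.rfl)
        (fun a => if w a < κ then (w a + 1).choose 2 else 0)).symm
    have hkey : ∀ a ∈ U, k₁ < w a → w a * (w a + 1) * (w a + 2) + (2 * W + k₁ * (k₁ + 1)) ≤
        2 * ∑ b ∈ U.filter (fun b => w b < w a), (w b + 1).choose 2 := by
      intro a ha hka
      have h1 := hc a hka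
      have h2 := hU3 a ha
      have h3 := R4h.two_choose (w a)
      have h4 : w a * (w a + 1) * (w a + 3) = w a * (w a + 1) * (w a + 2) + w a * (w a + 1) := by
        ring
      omega
    have hwin : 2 * ∑ a ∈ U, (w a + 1).choose 2 < 2 * N + (2 * W + k₁ * (k₁ + 1)) := by
      rcases Finset.eq_empty_or_nonempty U with h | h
      · rw [h, Finset.sum_empty]
        omega
      · obtain ⟨a, ha, hamin⟩ := Finset.exists_min_image U w h
        rcases Nat.lt_or_ge k₁ (w a) with h1 | h1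
        · have h2 := hkey a ha h1
          have h3 : U.filter (fun b => w b < w a) = ∅ := by
            rw [Finset.filter_eq_empty_iff]
            intro b hb
            exact not_lt.2 (hamin b hb)
          rw [h3, Finset.sum_empty] at h2
          omega
        · have h2 := hU2 a ha
          have h3 := R4h.two_choose (w a)
          have h4 : w a * (w a + 1) ≤ k₁ * (k₁ + 1) := Nat.mul_le_mul h1 (by omega)
          omega
    have h' := (rank_thr hST hS hX K k₁ m hk₁ hkm {a // a ∈ U} (fun a => w a)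
      (fun a => hw a.1) d (2 * W + k₁ * (k₁ + 1)) hBig (by rw [hAU, ← hN]; exact hwin) (by
        intro a ha
        have h1 := hkey a.1 a.2 ha
        rw [← hfil] at h1
        exact h1)).2 (by rw [hAU, ← hN, ← hW]; exact hU1)
    rw [← coe_Tfin] at h'
    have h3 := (hTR K {a // a ∈ U} (Fin n) (fun a => w a) w
      ⟨fun a => (a.1.1 : Fin n), fun a b hab => Subtype.ext (Subtype.ext hab)⟩
      (fun a => le_refl _) (Tfin d)).2 _ h'
    rw [coe_Tfin] at h3
    exact h3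

end Pool.Agent.H932R7
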