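import Mathlib
import Pool.Agent.H15.G.R_seed8.H932R7.Stubs

set_option autoImplicit false

/-!
# Task FIN (helper746): the main theorem
-/

namespace Pool.Agent.H932R7

open Polynomial Pool.Agent.H932R2 Pool.Agent.H932R3

namespace FINh

theorem two_choose (d : ℕ) : 2 * (d + 2).choose 2 = (d + 2) * (d + 1) := by
  have h5 : (d + 2).choose 2 * 2 = (d + 2) * (d + 1) := by
    rw [Nat.choose_two_right, Nat.div_mul_cancel (Nat.even_mul_pred_self _).two_dvd]
    rfl
  linarith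

theorem six_choose (m : ℕ) : 6 * (m + 1).choose 3 ≤ (m + 1) * m * m := by
  have h1 := Nat.add_one_mul_choose_eq m 2
  have h2 : m.choose 2 * 2 = m * (m - 1) := by
    rw [Nat.choose_two_right, Nat.div_mul_cancel (Nat.even_mul_pred_self _).two_dvd]
  have h3 : m * (m - 1) ≤ m * m := Nat.mul_le_mul_left _ (Nat.sub_le _ _)
  have h1' : (m + 1) * m.choose 2 = (m + 1).choose 3 * 3 := h1
  calc 6 * (m + 1).choose 3 = 2 * ((m + 1).choose 3 * 3) := by ring
    _ = (m + 1) * (m.choose 2 * 2) := by rw [← h1']; ring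
    _ ≤ (m + 1) * (m * m) := Nat.mul_le_mul_left _ (h2 ▸ h3)
    _ = (m + 1) * m * m := by ring

theorem big_mono {m X Y : ℕ} (h : X ≤ Y) (hX : Big m X) : Big m Y :=
  le_trans hX (by exact_mod_cast h)

/-- The key numerical step. -/
theorem key {m A d : ℕ} (hm : 0 < m) (hA : Big m A)
    (h : (d + 2).choose 2 + 2 * (m + 1).choose 3 ≤ A) :
    ∃ e, d ≤ e ∧ Big m ((e + 1) * (e + 2)) ∧ (e + 2).choose 2 + 2 * (m + 1).choose 3 ≤ A := by
  classical
  have hle : ∀ e : ℕ, (e + 2).choose 2 + 2 * (m + 1).choose 3 ≤ A → e ≤ A := by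
    intro e he
    have h1 := two_choose e
    nlinarith
  let P : ℕ → Prop := fun e => (e + 2).choose 2 + 2 * (m + 1).choose 3 ≤ A
  obtain ⟨e, he⟩ : ∃ e, e = Nat.findGreatest P A := ⟨_, rfl⟩
  have hPe : P e := by
    rw [he]
    exact Nat.findGreatest_spec (P := P) (hle d h) h
  have hde : d ≤ e := by
    rw [he]
    exact Nat.le_findGreatest (hle d h) h
  have hnot : ¬ P (e + 1) := by
    intro h1
    have h2 : e + 1 ≤ Nat.findGreatest P A := Nat.le_findGreatest (hle _ h1) h1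
    omega
  refine ⟨e, hde, ?_, hPe⟩
  have hnot' : A < (e + 1 + 2).choose 2 + 2 * (m + 1).choose 3 := not_le.1 hnot
  have h1 := two_choose (e + 1)
  have h2 := six_choose m
  have h1R : (2 : ℝ) * ((e + 1 + 2).choose 2 : ℕ) = (e + 3) * (e + 2) := by
    have : ((2 * (e + 1 + 2).choose 2 : ℕ) : ℝ) = (((e + 1 + 2) * (e + 1 + 1) : ℕ) : ℝ) := by
      rw [h1]
    push_cast at this ⊢
    linarith
  have h2R : (6 : ℝ) * ((m + 1).choose 3 : ℕ) ≤ (m + 1) * m * m := by exact_mod_cast h2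
  have h3R : (A : ℝ) < ((e + 1 + 2).choose 2 : ℕ) + 2 * ((m + 1).choose 3 : ℕ) := by
    exact_mod_cast hnot'
  have hmR : (1 : ℝ) ≤ m := by exact_mod_cast hm
  have hs : (1 : ℝ) ≤ Real.sqrt m := by
    rw [show (1 : ℝ) = Real.sqrt 1 by simp]
    exact Real.sqrt_le_sqrt hmR
  unfold Big at hA ⊢
  obtain ⟨H, hH⟩ : ∃ H : ℝ, H = (m : ℝ) * (m + 1) * (m + 6 * Real.sqrt m + 10) := ⟨_, rfl⟩
  rw [← hH] at hA ⊢
  have hmm : (2 : ℝ) ≤ m * (m + 1) := by nlinarith
  have hH1 : 34 ≤ H := by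
    rw [hH]
    nlinarith
  have hH2 : (m + 1 : ℝ) * m * m ≤ H := by
    rw [hH]
    nlinarith
  have h4 : 4 / 3 * H < (e + 3) * (e + 2) := by linarith
  have h5 : 5 ≤ e := by
    by_contra hcon
    have h6 : (e : ℝ) ≤ 4 := by exact_mod_cast (by omega : e ≤ 4)
    have h7 : (0 : ℝ) ≤ e := Nat.cast_nonneg e
    nlinarith
  have h6 : (5 : ℝ) ≤ e := by exact_mod_cast h5
  push_cast
  nlinarith

end FINh

open FINh in
theorem T_FIN (hR : P_RANKS) (hH : P_HOP) : P_FIN := by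
  classical
  intro L _ _ n w m hm hw
  obtain ⟨A, hA⟩ : ∃ A, A = Aw w := ⟨_, rfl⟩
  obtain ⟨W, hW⟩ : ∃ W, W = 2 * (m + 1).choose 3 := ⟨_, rfl⟩
  have hexI : ∃ d, Big m ((d + 1) * (d + 2)) ∧ A + W ≤ (d + 2).choose 2 := by
    obtain ⟨N, hN⟩ := exists_nat_ge ((m : ℝ) * (m + 1) * (m + 6 * Real.sqrt m + 10))
    refine ⟨N + A + W, ?_, ?_⟩
    · refine big_mono (X := N) ?_ hN
      nlinarith
    · have := two_choose (N + A + W)
      nlinarith
  obtain ⟨f, hf1, hf2, hfmin⟩ : ∃ f, Big m ((f + 1) * (f + 2)) ∧ A + W ≤ (f + 2).choose 2 ∧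
      ∀ d, Big m ((d + 1) * (d + 2)) → A + W ≤ (d + 2).choose 2 → f ≤ d :=
    ⟨Nat.find hexI, (Nat.find_spec hexI).1, (Nat.find_spec hexI).2,
      fun d h1 h2 => Nat.find_min' hexI ⟨h1, h2⟩⟩
  have hrk1 : RkS (PF ℚ w) (Tset f) (Aw w) := (hR ℚ n w m f hm hw hf1).1 (by rw [← hA, ← hW]; exact hf2)
  obtain ⟨F1, hF1, hF1'⟩ := hH L n w _ _ hrk1
  have hsum : ∑ a, (EE 1 (w a)).card = ∑ i, (w i + 1).choose 2 :=
    Finset.sum_congr rfl fun i _ => card_EE_eq (w i)
  -- from the dimension in `K[x][y]`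
  have hfin : ∀ (P : Fin n → Fin 2 → L) (d : ℕ),
      Module.finrank L ↥(mspan L (Tset d) ⊓ Submodule.restrictScalars L
        (vIdeal 1 w (fun a => P a 0) (fun a => C (P a 1)))) =
        (d + 2).choose 2 - ∑ a, (EE 1 (w a)).card → ExpDim L w P d := by
    intro P d h5
    unfold ExpDim
    rw [hsum] at h5
    rw [← h5]
    refine finrank_forms _ _ fun F hF => ?_
    rw [Submodule.restrictScalars_mem, Submodule.restrictScalars_mem]
    unfold vIdeal
    rw [Ideal.mem_iInf, Ideal.mem_iInf]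
    exact forall_congr' fun i => mem_ptIdeal_iff hF
  have hE : ∃ F2 : MvPolynomial (Fin n × Fin 2) ℚ, F2 ≠ 0 ∧ ∀ P : Fin n → Fin 2 → L,
      MvPolynomial.aeval (fun ij : Fin n × Fin 2 => P ij.1 ij.2) F2 ≠ 0 →
      ∀ d, Big m ((d + 1) * (d + 2)) → (d + 2).choose 2 + W ≤ A → ∀ d' ≤ d,
        ExpDim L w P d' := by
    by_cases hex : ∃ d, Big m ((d + 1) * (d + 2)) ∧ (d + 2).choose 2 + W ≤ A
    · have hle : ∀ e : ℕ, (e + 2).choose 2 + W ≤ A → e ≤ A := by
        intro e he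
        have h1 := two_choose e
        nlinarith
      obtain ⟨d0, hd0⟩ := hex
      let P : ℕ → Prop := fun d => Big m ((d + 1) * (d + 2)) ∧ (d + 2).choose 2 + W ≤ A
      obtain ⟨e, he⟩ : ∃ e, e = Nat.findGreatest P A := ⟨_, rfl⟩
      have hPe : P e := by
        rw [he]
        exact Nat.findGreatest_spec (P := P) (hle d0 hd0.2) hd0
      have hrk2 := (hR ℚ n w m e hm hw hPe.1).2 (by rw [← hA, ← hW]; exact hPe.2)
      obtain ⟨F2, hF2, hF2'⟩ := hH L n w _ _ hrk2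
      refine ⟨F2, hF2, fun Q hQ d h1 h2 d' hd' => hfin Q d' ?_⟩
      have h3 := hF2' _ hQ
      have hde : d ≤ e := by
        rw [he]
        exact Nat.le_findGreatest (P := P) (hle d h2) ⟨h1, h2⟩
      exact finrank_full h3 d' (hd'.trans hde)
    · refine ⟨1, one_ne_zero, fun P _ d h1 h2 => ?_⟩
      exact absurd ⟨d, h1, h2⟩ hex
  obtain ⟨F2, hF2, hF2'⟩ := hE
  refine ⟨F1 * F2, mul_ne_zero hF1 hF2, fun P hP d hd hAd => ?_⟩
  rw [map_mul] at hP
  have hP1 := left_ne_zero_of_mul hP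
  have hP2 := right_ne_zero_of_mul hP
  rw [← hA, ← hW] at hAd
  rw [← hA] at hd
  rcases hAd with h | h
  · have hB : Big m ((d + 1) * (d + 2)) := by
      rcases hd with hd | hd
      · exact hd
      · refine big_mono ?_ hd
        have := two_choose d
        nlinarith
    have hfd := hfmin d hB h
    refine hfin P d ?_
    have h3 := hF1' _ hP1
    refine finrank_indep (f := f) ?_ d hfd
    rw [hsum]
    exact h3
  · rcases hd with hd | hd
    · exact hF2' P hP2 d hd h d le_rfl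
    · rw [hW] at h
      obtain ⟨e, hde, h1, h2⟩ := key hm hd h
      rw [← hW] at h2
      exact hF2' P hP2 e h1 h2 d hde

end Pool.Agent.H932R7
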