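import Mathlib
import Pool.Agent.H15.G.R_seed8.H932R7.R3b
import Pool.Agent.H15.G.R_seed8.H932R7.Fin4
import Pool.Agent.H15.G.R_seed8.H932R7.TFIN

set_option autoImplicit false

/-!
# The main theorem with a threshold: from ranks to forms
-/

namespace Pool.Agent.H932R7

open Polynomial Pool.Agent.H932R2 Pool.Agent.H932R3

/-- The numerical step, adapted from `FINh.key` (helper746). -/
theorem key2 {m A d W : ℕ} (hm : 0 < m) (hW : W ≤ 2 * (m + 1).choose 3) (hA : Big m A)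
    (h : (d + 2).choose 2 + W ≤ A) :
    ∃ e, d ≤ e ∧ Big m ((e + 1) * (e + 2)) ∧ (e + 2).choose 2 + W ≤ A := by
  classical
  have hle : ∀ e : ℕ, (e + 2).choose 2 + W ≤ A → e ≤ A := by
    intro e he
    have h1 := FINh.two_choose e
    nlinarith
  let P : ℕ → Prop := fun e => (e + 2).choose 2 + W ≤ A
  obtain ⟨e, he⟩ : ∃ e, e = Nat.findGreatest P A := ⟨_, rfl⟩
  have hPe : P e := by
    rw [he]
    exact Nat.findGreatest_spec (P := P) (hle d h) h
  have hde : d ≤ e := by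
    rw [he]
    exact Nat.le_findGreatest (hle d h) h
  have hnot : ¬ P (e + 1) := by
    intro h1
    have h2 : e + 1 ≤ Nat.findGreatest P A := Nat.le_findGreatest (hle _ h1) h1
    omega
  refine ⟨e, hde, ?_, hPe⟩
  have hnot0 : A < (e + 1 + 2).choose 2 + W := not_le.1 hnot
  have hnot' : A < (e + 1 + 2).choose 2 + 2 * (m + 1).choose 3 := by omega
  have h1 := FINh.two_choose (e + 1)
  have h2 := FINh.six_choose m
  have h1R : (2 : ℝ) * ((e + 1 + 2).choose 2 : ℕ) = (e + 3) * (e + 2) := by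
    have : ((2 * (e + 1 + 2).choose 2 : ℕ) : ℝ) = (((e + 1 + 2) * (e + 1 + 1) : ℕ) : ℝ) := by
      rw [h1]
    push_cast at this ⊢
    linarith
  have h2R : (6 : ℝ) * ((m + 1).choose 3 : ℕ) ≤ (m + 1) * m * m := by exact_mod_cast h2
  have h3R : (A : ℝ) < ((e + 1 + 2).choose 2 : ℕ) + 2 * ((m + 1).choose 3 : ℕ) := by
    exact_mod_cast hnot'
  have hmR : (1 : ℝ) ≤ m := by exact_mod_cast hm
  have hs : (1 : ℝ) ≤ Real.sqrt m := by
    rw [show (1 : ℝ) = Real.sqrt 1 by simp]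
    exact Real.sqrt_le_sqrt hmR
  unfold Big at hA ⊢
  obtain ⟨H, hH⟩ : ∃ H : ℝ, H = (m : ℝ) * (m + 1) * (m + 6 * Real.sqrt m + 10) := ⟨_, rfl⟩
  rw [← hH] at hA ⊢
  have hmm : (2 : ℝ) ≤ m * (m + 1) := by nlinarith
  have hH1 : 34 ≤ H := by
    rw [hH]
    nlinarith
  have hH2 : (m + 1 : ℝ) * m * m ≤ H := by
    rw [hH]
    nlinarith
  have h4 : 4 / 3 * H < (e + 3) * (e + 2) := by linarith
  have h5 : 5 ≤ e := by
    by_contra hcon
    have h6 : (e : ℝ) ≤ 4 := by exact_mod_cast (by omega : e ≤ 4)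
    have h7 : (0 : ℝ) ≤ e := Nat.cast_nonneg e
    nlinarith
  have h6 : (5 : ℝ) ≤ e := by exact_mod_cast h5
  push_cast
  nlinarith

/-- From ranks to forms. -/
theorem fin_gen2 (hH : P_HOP) (L : Type) [Field L] [CharZero L] (n : ℕ) (w : Fin n → ℕ)
    (m W : ℕ) (hm : 0 < m) (hW : W ≤ 2 * (m + 1).choose 3)
    (hI : ∀ d, Big m ((d + 1) * (d + 2)) → Aw (w2 w) + W ≤ (d + 2).choose 2 →
      RkS (PF ℚ w) (Tset d) (min ((d + 2).choose 2) (Aw w)))
    (hF : ∀ d, Big m ((d + 1) * (d + 2)) → (d + 2).choose 2 + W ≤ Aw w →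
      RkS (PF ℚ w) (Tset d) ((d + 2).choose 2)) :
    ∃ F : MvPolynomial (Fin n × Fin 2) ℚ, F ≠ 0 ∧ ∀ P : Fin n → Fin 2 → L,
      MvPolynomial.aeval (fun ij : Fin n × Fin 2 => P ij.1 ij.2) F ≠ 0 →
        ∀ d : ℕ, (Big m ((d + 1) * (d + 2)) ∨ Big m (Aw w)) →
          (Aw (w2 w) + W ≤ (d + 2).choose 2 ∨ (d + 2).choose 2 + W ≤ Aw w) →
            ExpDim L w P d := by
  classical
  have hmono : ∀ {a b : ℕ}, a ≤ b → (a + 1) * (a + 2) ≤ (b + 1) * (b + 2) := fun h =>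
    Nat.mul_le_mul (by omega) (by omega)
  have hcm : ∀ {a b : ℕ}, a ≤ b → (a + 2).choose 2 ≤ (b + 2).choose 2 := fun h =>
    Nat.choose_le_choose 2 (by omega)
  -- the first degree
  have hex : ∃ d, Big m ((d + 1) * (d + 2)) ∧ Aw (w2 w) + W ≤ (d + 2).choose 2 := by
    obtain ⟨X, hX⟩ := exists_nat_ge ((m : ℝ) * (m + 1) * (m + 6 * Real.sqrt m + 10))
    refine ⟨X + (Aw (w2 w) + W), ?_, ?_⟩
    · unfold Big
      refine hX.trans ?_
      have : X ≤ (X + (Aw (w2 w) + W) + 1) * (X + (Aw (w2 w) + W) + 2) := by nlinarith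
      exact_mod_cast this
    · have h1 := two_choose (X + (Aw (w2 w) + W))
      nlinarith
  obtain ⟨h0a, h0b⟩ := Nat.find_spec hex
  obtain ⟨d0, hd0⟩ : ∃ d0, d0 = Nat.find hex := ⟨_, rfl⟩
  rw [← hd0] at h0a h0b
  have hrank : ∀ d, d0 ≤ d → RkS (PF ℚ w) (Tset d) (min ((d + 2).choose 2) (Aw w)) :=
    fun d hd => hI d (h0a.mono (hmono hd)) (h0b.trans (hcm hd))
  have hex2 : ∃ d, d0 ≤ d ∧ Aw w ≤ (d + 2).choose 2 := by
    refine ⟨d0 + Aw w, by omega, ?_⟩
    have h1 := two_choose (d0 + Aw w)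
    nlinarith
  obtain ⟨hfa, hfb⟩ := Nat.find_spec hex2
  have hfmin := fun d => Nat.find_min hex2 (m := d)
  obtain ⟨f, hf⟩ : ∃ f, f = Nat.find hex2 := ⟨_, rfl⟩
  rw [← hf] at hfa hfb hfmin
  have hr1 := hrank f hfa
  rw [min_eq_right hfb] at hr1
  obtain ⟨F1, hF1, hF1'⟩ := exp_of_indep (L := L) hH hr1
  obtain ⟨F3, hF3, hF3'⟩ : ∃ F : MvPolynomial (Fin n × Fin 2) ℚ, F ≠ 0 ∧
      ∀ P : Fin n → Fin 2 → L,
      MvPolynomial.aeval (fun ij : Fin n × Fin 2 => P ij.1 ij.2) F ≠ 0 →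
        ∀ d : ℕ, d0 < f → d < f → ExpDim L w P d := by
    rcases Nat.lt_or_ge d0 f with h | h
    · have h1 := hrank (f - 1) (by omega)
      have h2 := hfmin (f - 1) (by omega)
      have h3 : (f - 1 + 2).choose 2 < Aw w := by
        by_contra h4
        exact h2 ⟨by omega, by omega⟩
      rw [min_eq_left h3.le, ← card_Tfin'] at h1
      obtain ⟨F, hF, hF'⟩ := exp_of_full (L := L) hH h1
      exact ⟨F, hF, fun P hP d _ hd => hF' P hP d (by omega)⟩
    · exact ⟨1, one_ne_zero, fun P _ d h1 _ => absurd h1 (by omega)⟩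
  -- the last degree on the other side
  obtain ⟨F2, hF2, hF2'⟩ : ∃ F2 : MvPolynomial (Fin n × Fin 2) ℚ, F2 ≠ 0 ∧
      ∀ P : Fin n → Fin 2 → L,
      MvPolynomial.aeval (fun ij : Fin n × Fin 2 => P ij.1 ij.2) F2 ≠ 0 →
      ∀ d, Big m ((d + 1) * (d + 2)) → (d + 2).choose 2 + W ≤ Aw w → ∀ d' ≤ d,
        ExpDim L w P d' := by
    by_cases hex : ∃ d, Big m ((d + 1) * (d + 2)) ∧ (d + 2).choose 2 + W ≤ Aw w
    · have hle : ∀ e : ℕ, (e + 2).choose 2 + W ≤ Aw w → e ≤ Aw w := by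
        intro e he
        have h1 := two_choose e
        nlinarith
      obtain ⟨d1, hd1⟩ := hex
      let P : ℕ → Prop := fun d => Big m ((d + 1) * (d + 2)) ∧ (d + 2).choose 2 + W ≤ Aw w
      obtain ⟨e, he⟩ : ∃ e, e = Nat.findGreatest P (Aw w) := ⟨_, rfl⟩
      have hPe : P e := by
        rw [he]
        exact Nat.findGreatest_spec (P := P) (hle d1 hd1.2) hd1
      have hrk2 := hF e hPe.1 hPe.2
      rw [← card_Tfin'] at hrk2
      obtain ⟨F2, hF2, hF2'⟩ := exp_of_full (L := L) hH hrk2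
      refine ⟨F2, hF2, fun Q hQ d h1 h2 d' hd' => hF2' Q hQ d' (hd'.trans ?_)⟩
      rw [he]
      exact Nat.le_findGreatest (P := P) (hle d h2) ⟨h1, h2⟩
    · refine ⟨1, one_ne_zero, fun P _ d h1 h2 => ?_⟩
      exact absurd ⟨d, h1, h2⟩ hex
  refine ⟨F1 * F2 * F3, mul_ne_zero (mul_ne_zero hF1 hF2) hF3, fun P hP d hd1 hd2 => ?_⟩
  rw [map_mul, map_mul] at hP
  have hP3 := right_ne_zero_of_mul hP
  have hP1 := left_ne_zero_of_mul (left_ne_zero_of_mul hP)
  have hP2 := right_ne_zero_of_mul (left_ne_zero_of_mul hP)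
  have hsecond : (d + 2).choose 2 + W ≤ Aw w → ExpDim L w P d := by
    intro h
    rcases hd1 with hd | hd
    · exact hF2' P hP2 d hd h d le_rfl
    · obtain ⟨e, hde, h1, h2⟩ := key2 hm hW hd h
      exact hF2' P hP2 e h1 h2 d hde
  rcases hd2 with hd2 | hd2
  · by_cases hB : Big m ((d + 1) * (d + 2))
    · have h1 : d0 ≤ d := by
        rw [hd0]
        exact Nat.find_min' hex ⟨hB, hd2⟩
      rcases Nat.lt_or_ge d f with h | h
      · exact hF3' P hP3 d (by omega) h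
      · exact hF1' P hP1 d h
    · have hBA : Big m (Aw w) := hd1.resolve_left hB
      refine hsecond ?_
      have h1 := two_choose d
      have h3 := three_choose m
      unfold Big at hB hBA
      push Not at hB
      have hs : 0 ≤ Real.sqrt m := Real.sqrt_nonneg _
      have hmR : (1 : ℝ) ≤ m := by exact_mod_cast hm
      have h4 : (2 : ℝ) * ((d + 2).choose 2 : ℕ) <
          (m : ℝ) * (m + 1) * (m + 6 * Real.sqrt m + 10) := by
        have : ((2 * (d + 2).choose 2 : ℕ) : ℝ) = (((d + 1) * (d + 2) : ℕ) : ℝ) := by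
          rw [h1]
        push_cast at this hB
        linarith
      have h5 : (3 : ℝ) * ((2 * (m + 1).choose 3 : ℕ) : ℝ) + m = m * m * m := by
        exact_mod_cast h3
      have h6 : (m : ℝ) * m * m ≤ (m : ℝ) * (m + 1) * (m + 6 * Real.sqrt m + 10) := by
        have h7 : (m : ℝ) * m ≤ m * (m + 1) := by nlinarith
        have h8 : (m : ℝ) ≤ m + 6 * Real.sqrt m + 10 := by linarith
        exact mul_le_mul h7 h8 (by linarith) (by positivity)
      have h9 : (((d + 2).choose 2 + 2 * (m + 1).choose 3 : ℕ) : ℝ) ≤ ((Aw w : ℕ) : ℝ) := by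
        rw [Nat.cast_add]
        linarith
      have h10 : (d + 2).choose 2 + 2 * (m + 1).choose 3 ≤ Aw w := by exact_mod_cast h9
      omega
  · exact hsecond hd2

end Pool.Agent.H932R7
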