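import Mathlib
import Pool.Agent.H15.G.R_seed8.H932R7.Stubs3

set_option autoImplicit false

/-!
# The chain of balanced shapes
-/

namespace Pool.Agent.H932R7

open Polynomial Pool.Agent.H932R2 Pool.Agent.H932R3

theorem T_CH : P_CH := by
  intro K _ _ 𝓘 h𝓘 s κ u t j u' t' j' N hs hg ht' hj' hsz h
  have hK : ∀ k : ℕ, 0 < k → k ≤ u → (k : K) ≠ 0 := fun k hk _ => by
    exact_mod_cast hk.ne'
  obtain ⟨u1, t1, j1, h1, h2, h3, h4⟩ := chain (n := N) h𝓘 hs u hK κ u t j hg le_rfl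
  obtain ⟨ht, hj, hu⟩ := hg
  rw [coe_Lfin ht hj]
  refine h4 ?_
  obtain ⟨ht1, hj1, hu1⟩ := h1
  rw [← coe_Lfin ht1 hj1]
  rwa [Lfin_eq ht1 hj1 ht' hj' (h3.trans hsz.symm)]

end Pool.Agent.H932R7
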