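import Mathlib
import Pool.Agent.H15.G.R_seed8.H932R7.Stubs

set_option autoImplicit false

namespace Pool.Agent.H932R7

open Polynomial Pool.Agent.H932R2 Pool.Agent.H932R3

namespace CARDSh

theorem sum_refl (k' : ℕ) : 2 * ∑ l ∈ Finset.range (k' + 1), (k' - l) = (k' + 1) * k' := by
  have h1 : ∑ l ∈ Finset.range (k' + 1), (k' - l) = ∑ l ∈ Finset.range (k' + 1), l :=
    Finset.sum_range_reflect (fun l => l) (k' + 1)
  have h2 := Finset.sum_range_id_mul_two (k' + 1)
  rw [Nat.add_sub_cancel] at h2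
  rw [h1]
  linarith

theorem choose_eq (m : ℕ) : 2 * (m + 1).choose 2 = (m + 1) * m := by
  have h5 : (m + 1).choose 2 * 2 = (m + 1) * m := by
    rw [Nat.choose_two_right, Nat.div_mul_cancel (Nat.even_mul_pred_self _).two_dvd]
    rfl
  linarith

theorem card_Z (k' s t : ℕ) : 2 * (Zt (k' + 1) s t).card = s * ((k' + 1) * k') + 2 * ((k' + 1) * t) := by
  unfold Zt
  rw [card_rowsF, Finset.sum_add_distrib, ← Finset.mul_sum]
  have h := sum_refl k'
  simp only [Nat.add_sub_cancel, Finset.sum_const, Finset.card_range, smul_eq_mul]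
  rw [mul_add, ← mul_assoc, mul_comm 2 s, mul_assoc, h]

end CARDSh

open CARDSh in
theorem T_CARDS : P_CARDS := by
  refine ⟨?_, ?_, ?_, ?_⟩
  · intro k s
    ext ⟨i, l⟩
    unfold Zt
    rw [mem_EE, mem_rowsF]
    constructor
    · rintro ⟨h1, h2⟩
      refine ⟨h1, ?_⟩
      have : k - l = (k - 1 - l) + 1 := by omega
      rw [this] at h2
      linarith [h2]
    · rintro ⟨h1, h2⟩
      refine ⟨h1, ?_⟩
      have : k - l = (k - 1 - l) + 1 := by omega
      rw [this]
      linarith [h2]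
  · intro k s n hk hn
    obtain ⟨k', rfl⟩ : ∃ k', k = k' + 1 := ⟨k - 1, by omega⟩
    obtain ⟨e, rfl⟩ : ∃ e, s = n + e := ⟨s - n, by omega⟩
    rw [card_EE_eq', Nat.add_sub_cancel, Nat.add_sub_cancel_left]
    have h1 := card_Z k' (n + e) n
    have h2 := choose_eq k'
    have h3 := choose_eq (k' + 1)
    have h4 : 2 * (e * (k' + 1).choose 2 + n * (k' + 1 + 1).choose 2) =
        e * ((k' + 1) * k') + n * ((k' + 1 + 1) * (k' + 1)) := by
      rw [← h2, ← h3]
      ring
    have h5 : (n + e) * ((k' + 1) * k') + 2 * ((k' + 1) * n) =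
        e * ((k' + 1) * k') + n * ((k' + 1 + 1) * (k' + 1)) := by ring
    omega
  · intro k s t t' htt
    intro p hp
    obtain ⟨i, l⟩ := p
    unfold Zt at hp ⊢
    rw [mem_rowsF] at hp ⊢
    exact ⟨hp.1, by omega⟩
  · intro k s t κ
    rcases Nat.eq_zero_or_pos k with rfl | hk
    · rfl
    · obtain ⟨k', rfl⟩ : ∃ k', k = k' + 1 := ⟨k - 1, by omega⟩
      have h1 := card_Z k' s (t + κ * (k' + 1 - 1))
      have h2 := card_Z k' (s + 2 * κ) t
      rw [Nat.add_sub_cancel] at h1 ⊢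
      have h5 : s * ((k' + 1) * k') + 2 * ((k' + 1) * (t + κ * k')) =
        (s + 2 * κ) * ((k' + 1) * k') + 2 * ((k' + 1) * t) := by ring
      omega

end Pool.Agent.H932R7
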