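import Mathlib
import Pool.Agent.H15.G.R_seed8.H932R7.Stubs

/-!
# Points of multiplicity `k` on the line `y = 0`
-/

set_option autoImplicit false

namespace Pool.Agent.H932R7

open Polynomial Pool.Agent.H932R2 Pool.Agent.H932R3

theorem T_DIV : P_DIV := by
  intro K _ σ _ x hx k f hf l hl
  have h1 : ∀ j, (X - C (x j)) ^ (k - l) ∣ f.coeff l := by
    intro j
    have h3 := mem_cIdeal_iff_sh.1 (hf j) l hl
    rwa [rootPoly_const, pow_one, sh_zero_zero] at h3
  rw [← Finset.prod_pow]
  refine Finset.prod_dvd_of_coprime (fun a _ b _ hab => ?_) fun a _ => h1 a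
  exact (isCoprime_X_sub_C_of_isUnit_sub
    (isUnit_iff_ne_zero.2 (sub_ne_zero.2 fun h => hab (hx h)))).pow

end Pool.Agent.H932R7
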