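import Mathlib
import Pool.Agent.H15.G.R_seed8.H932R7.Stubs

set_option autoImplicit false

/-!
# From ranks over `ℚ` to general points (task HOP)
-/

namespace Pool.Agent.H932R7

open Polynomial Pool.Agent.H932R2 Pool.Agent.H932R3

namespace HOPh

theorem vIdeal_le {K : Type*} [Field K] {ι : Type*} (w : ι → ℕ) (c : ι → K) (g : ι → K[X]) :
    vIdeal 1 w c (fun a => C ((g a).eval (c a))) ≤ vIdeal 1 w c g :=
  iInf_mono fun a => point_le (c a) (g a) (w a)

end HOPh

theorem T_HOP : P_HOP := by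
  classical
  intro L _ _ n w T N h
  let c : Fin n → MvPolynomial (Fin n × Fin 2) ℚ := fun a => MvPolynomial.X (a, 0)
  let γ : Fin n → (MvPolynomial (Fin n × Fin 2) ℚ)[X] := fun a => C (MvPolynomial.X (a, 1))
  obtain ⟨_, ⟨x, g, rfl⟩, hR⟩ := h
  have h3 := hR.anti (HOPh.vIdeal_le w x g)
  let P0 : Fin n × Fin 2 → ℚ := fun ij => if ij.2 = 0 then x ij.1 else (g ij.1).eval (x ij.1)
  obtain ⟨F, hF, hF'⟩ := exists_openV_ext (L := L) 1 w c γ T N P0 (by
    simpa [P0, c, γ, vIdeal] using h3)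
  refine ⟨F, hF, fun P hP => ?_⟩
  have h4 := hF' P hP
  have e1 : (fun a => MvPolynomial.aeval P (c a)) = fun a => P (a, 0) := by
    funext a
    exact MvPolynomial.aeval_X _ _
  have e2 : (fun a => (γ a).map
      ((MvPolynomial.aeval P : MvPolynomial (Fin n × Fin 2) ℚ →ₐ[ℚ] L) :
        MvPolynomial (Fin n × Fin 2) ℚ →+* L)) = fun a => C (P (a, 1)) := by
    funext a
    show (C (MvPolynomial.X (a, 1))).map _ = _
    rw [Polynomial.map_C]
    congr 1
    exact MvPolynomial.aeval_X _ _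
  rw [e1, e2] at h4
  exact h4

end Pool.Agent.H932R7
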