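import Mathlib
import Pool.Agent.H15.G.R_seed8.H932R7.Stubs

/-! Task RK: rank versus dimension of the kernel. -/

set_option autoImplicit false

namespace Pool.Agent.H932R7

open Polynomial Pool.Agent.H932R2 Pool.Agent.H932R3

namespace RKh

/-- the map to the quotient, in coordinates -/
noncomputable def L {K : Type} [Field K] (J : Ideal K[X][X]) (M : Finset (ℕ × ℕ)) :
    (Fin M.card → K) →ₗ[K] K[X][X] ⧸ Submodule.restrictScalars K J :=
  (Submodule.restrictScalars K J).mkQ.comp (coordMap K M)

theorem L_eq_zero {K : Type} [Field K] (J : Ideal K[X][X]) (M : Finset (ℕ × ℕ))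
    (a : Fin M.card → K) : L J M a = 0 ↔ coordMap K M a ∈ J := by
  unfold L
  rw [LinearMap.comp_apply, Submodule.mkQ_apply, Submodule.Quotient.mk_eq_zero]
  rfl

theorem finrank_ker {K : Type} [Field K] (J : Ideal K[X][X]) (M : Finset (ℕ × ℕ)) :
    Module.finrank K ↥(LinearMap.ker (L J M)) =
      Module.finrank K ↥(mspan K (↑M : Set (ℕ × ℕ)) ⊓ Submodule.restrictScalars K J) := by
  refine LinearEquiv.finrank_eq (LinearEquiv.ofBijective
      { toFun := fun f => ⟨coordMap K M f.1, (mem_mspan_iff M _).2 ⟨f.1, rfl⟩,
          (L_eq_zero J M f.1).1 f.2⟩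
        map_add' := fun f g => Subtype.ext (map_add _ _ _)
        map_smul' := fun a f => Subtype.ext (map_smul _ _ _) } ⟨?_, ?_⟩)
  · intro f g hfg
    exact Subtype.ext (coordMap_inj M (congrArg Subtype.val hfg))
  · rintro ⟨f, hf, hf'⟩
    obtain ⟨a, rfl⟩ := (mem_mspan_iff M f).1 hf
    exact ⟨⟨a, (L_eq_zero J M a).2 hf'⟩, rfl⟩

end RKh

open RKh in
theorem T_RK : P_RK := by
  intro K _ J M n
  classical
  have hk := finrank_ker J M
  have hr := LinearMap.finrank_range_add_finrank_ker (L J M)
  rw [Module.finrank_fin_fun] at hr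
  have key : RkI J (↑M : Set (ℕ × ℕ)) n ↔ n ≤ Module.finrank K ↥(LinearMap.range (L J M)) := by
    constructor
    · rintro ⟨v, hv, hli⟩
      choose u hu using fun i => (mem_mspan_iff M (v i)).1 (hv i)
      have h1 : LinearIndependent K (fun i : Fin n =>
          (⟨L J M (u i), LinearMap.mem_range_self _ _⟩ : LinearMap.range (L J M))) := by
        rw [Fintype.linearIndependent_iff]
        intro c hc
        apply hli c
        have h2 : L J M (∑ i, c i • u i) = 0 := by
          have h3 := congrArg Subtype.val hc
          rw [map_sum]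
          rw [AddSubmonoidClass.coe_finsetSum] at h3
          simp only [map_smul]
          exact h3
        rw [L_eq_zero, map_sum] at h2
        have h4 : ∑ i, c i • v i = ∑ i, coordMap K M (c i • u i) := by
          refine Finset.sum_congr rfl fun i _ => ?_
          rw [map_smul, hu]
        rw [h4]
        exact h2
      have h5 := h1.fintype_card_le_finrank
      rwa [Fintype.card_fin] at h5
    · intro hn
      let b := Module.finBasis K ↥(LinearMap.range (L J M))
      have hx : ∀ i : Fin n, ∃ u : Fin M.card → K, L J M u = (b (Fin.castLE hn i)).1 :=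
        fun i => (b (Fin.castLE hn i)).2
      choose u hu using hx
      refine ⟨fun i => coordMap K M (u i), fun i => (mem_mspan_iff M _).2 ⟨u i, rfl⟩, ?_⟩
      intro c hc
      have h1 : L J M (∑ i, c i • u i) = 0 := by
        rw [L_eq_zero, map_sum]
        simp only [map_smul]
        exact hc
      have h2 : ∑ i, c i • b (Fin.castLE hn i) = 0 := by
        apply Subtype.ext
        rw [AddSubmonoidClass.coe_finsetSum]
        rw [map_sum] at h1
        simp only [map_smul, hu] at h1
        exact h1
      have h3 : LinearIndependent K (fun i : Fin n => b (Fin.castLE hn i)) :=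
        b.linearIndependent.comp _ (Fin.castLE_injective hn)
      exact Fintype.linearIndependent_iff.1 h3 c h2
  rw [key, ← hk]
  omega

end Pool.Agent.H932R7
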