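import Mathlib
import Pool.Agent.H15.G.R_seed8.H932R7.Stubs3

set_option autoImplicit false

/-!
# From a balanced shape of slope `r` to degree `d` (helper880)

The lemmas of the first part are those of `TMAST.lean` (helper506).
-/

namespace Pool.Agent.H932R7

open Polynomial Pool.Agent.H932R2 Pool.Agent.H932R3

namespace STARTh

variable {K : Type*} [Field K] [Infinite K] {𝓘 : Set (Ideal K[X][X])} {n : ℕ}

/-- The rank of the balanced shape of slope `s` from that of slope `r = s + 2 κ`. -/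
theorem balanced_n (h𝓘 : Stable 𝓘) {r s κ : ℕ} (hs : 0 < s) (hr : r = s + 2 * κ)
    {u₀ t₀ j₀ : ℕ} (ht₀ : t₀ < r) (hj₀ : j₀ ≤ u₀ + 1)
    (hbase : RkS 𝓘 (↑(Lfin r u₀ t₀ j₀) : Set (ℕ × ℕ)) n)
    {u t j : ℕ} (ht : t < s) (hj : j ≤ u + 1) (h : sz s u t j = sz r u₀ t₀ j₀)
    (hc : κ = 0 ∨ sz r u₀ t₀ j₀ < s * (s + 3) * (s + 4)) (B : ℕ) (hB : u ≤ B)
    (hK : ∀ k : ℕ, 0 < k → k ≤ B → (k : K) ≠ 0) :
    RkS 𝓘 (↑(Lfin s u t j) : Set (ℕ × ℕ)) n := by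
  rcases hc with rfl | hc
  · rw [mul_zero, add_zero] at hr
    subst hr
    rwa [Lfin_eq ht hj ht₀ hj₀ h]
  · have hg : Good s u t j := good_of_sz ht hj (by rw [h]; exact hc)
    obtain ⟨u', t', j', h1, h2, h3, h4⟩ := chain (n := n) h𝓘 hs B hK κ u t j hg hB
    rw [coe_Lfin ht hj]
    refine h4 ?_
    rw [← hr] at h1 h3 ⊢
    rw [← coe_Lfin h1.1 h1.2.1, Lfin_eq h1.1 h1.2.1 ht₀ hj₀ (h3.trans h)]
    exact hbase

theorem master_n (h𝓘 : Stable 𝓘) {r δ κ d B N₀ : ℕ} (hδ : 2 ≤ δ)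
    (hr : r = δ * δ + 2 * κ)
    {u₀ t₀ j₀ : ℕ} (ht₀ : t₀ < r) (hj₀ : j₀ ≤ u₀ + 1)
    (hbase : RkS 𝓘 (↑(Lfin r u₀ t₀ j₀) : Set (ℕ × ℕ)) n)
    (hN₀ : sz r u₀ t₀ j₀ = 2 * N₀)
    (hc : κ = 0 ∨ 2 * N₀ < δ * δ * (δ * δ + 3) * (δ * δ + 4))
    (hd : δ * ((δ - 1) * (δ - 2)) ≤ 2 * d) (hB : δ * d ≤ B)
    (hBm : ∀ u, δ * δ * u * (u + 1) ≤ 2 * N₀ → u ≤ B)
    (hK : ∀ k : ℕ, 0 < k → k ≤ B → (k : K) ≠ 0)
    (hle : 2 * N₀ ≤ (d + 1) * (d + 2)) : RkS 𝓘 (Tset d) n := by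
  have hs : 0 < δ * δ := Nat.mul_pos (by omega) (by omega)
  have hdm := Nat.div_add_mod d δ
  have hml := Nat.mod_lt d (show 0 < δ by omega)
  have hY := YY_le hδ hd
  obtain ⟨u1, t1, j1, ht1, hj1, hz1⟩ := exists_param (δ * δ) N₀ hs
  have hR1 := balanced_n h𝓘 hs hr ht₀ hj₀ hbase ht1 hj1 (hz1.trans hN₀.symm)
    (by rwa [hN₀]) B (hBm u1 (by unfold sz at hz1; omega)) hK
  obtain ⟨u, t, j, ht, hj, hz, himp⟩ := initial (n := n) h𝓘 hδ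
    (show d + 1 = δ * (d / δ) + (d % δ + 1) by omega) hml hY hB hK
  refine himp ?_
  rw [← coe_Lfin ht hj]
  refine hR1.mono ?_
  have := Lfin_subset ht1 hj1 ht hj (by rw [hz, hz1]; exact hle)
  exact_mod_cast this

omit [Infinite K] in
theorem exists_delta {r N₀ : ℕ} (hN10 : 10 ≤ N₀) (hcond : ∃ δ κ, CondN r N₀ δ κ) :
    ∃ δ κ, CondN r N₀ δ κ ∧ ∀ d, 2 * N₀ < (d + 2) * (d + 3) →
      δ * ((δ - 1) * (δ - 2)) ≤ 2 * d := by
  classical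
  obtain ⟨κ, hδ, hrδ, hc⟩ := Nat.find_spec hcond
  have hmin := fun δ' => Nat.find_min hcond (m := δ')
  set δ := Nat.find hcond with hδdef
  refine ⟨δ, κ, ⟨hδ, hrδ, hc⟩, fun d hd2 => ?_⟩
  rcases Nat.lt_or_ge δ 4 with h4 | h4
  · rcases Nat.lt_or_ge δ 3 with h3 | h3
    · have h2 : δ = 2 := by omega
      rw [h2]
      omega
    · have h3' : δ = 3 := by omega
      rw [h3']
      by_contra h
      have h5 : (d + 2) * (d + 3) ≤ 4 * 5 := Nat.mul_le_mul (by omega) (by omega)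
      omega
  · obtain ⟨σ, hσ⟩ : ∃ σ, δ = σ + 2 := ⟨δ - 2, by omega⟩
    have h5 := hmin σ (by omega)
    have h6 : σ * σ * (σ * σ + 3) * (σ * σ + 4) ≤ 2 * N₀ := by
      by_contra h7
      refine h5 ⟨κ + 2 * δ - 2, by omega, ?_, Or.inr (by omega)⟩
      rw [hrδ, hσ]
      have : κ + 2 * (σ + 2) - 2 = κ + 2 * σ + 2 := by omega
      rw [this]
      ring
    rw [hσ]
    have h8 : (σ + 2 - 1) * (σ + 2 - 2) = (σ + 1) * σ := rfl
    rw [h8]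
    by_contra h9
    push Not at h9
    obtain ⟨y, rfl⟩ : ∃ y, σ = y + 2 := ⟨σ - 2, by omega⟩
    have h10 : (2 * d + 4) * (2 * d + 6) ≤
        ((y + 2 + 2) * ((y + 2 + 1) * (y + 2)) + 3) * ((y + 2 + 2) * ((y + 2 + 1) * (y + 2)) + 5) :=
      Nat.mul_le_mul (by omega) (by omega)
    have h11 : (2 * d + 4) * (2 * d + 6) = 4 * ((d + 2) * (d + 3)) := by ring
    have h12 : ((y + 2 + 2) * ((y + 2 + 1) * (y + 2)) + 3) *
        ((y + 2 + 2) * ((y + 2 + 1) * (y + 2)) + 5) <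
        4 * ((y + 2) * (y + 2) * ((y + 2) * (y + 2) + 3) * ((y + 2) * (y + 2) + 4)) := by
      zify
      have hy : (0 : ℤ) ≤ y := by positivity
      have h13 : (0 : ℤ) < 4 * ((y + 2) * (y + 2) * ((y + 2) * (y + 2) + 3) *
          ((y + 2) * (y + 2) + 4)) - ((y + 2 + 2) * ((y + 2 + 1) * (y + 2)) + 3) *
        ((y + 2 + 2) * ((y + 2 + 1) * (y + 2)) + 5) := by
        ring_nf
        positivity
      linarith
    omega

end STARTh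

open STARTh in
theorem T_START : P_START := by
  intro K _ _ 𝓘 h𝓘 r m d N u t j hr hle h20 hd ht hj hsz hR
  have : Infinite K := CharZero.infinite K
  have hK : ∀ B : ℕ, ∀ k : ℕ, 0 < k → k ≤ B → (k : K) ≠ 0 := fun B k hk _ =>
    Nat.cast_ne_zero.2 (by omega)
  obtain ⟨N₀, hN₀⟩ : ∃ N₀, N₀ = (Tfin d).card := ⟨_, rfl⟩
  have h2N : 2 * N₀ = (d + 1) * (d + 2) := by
    have := card_Tfin d
    rw [hN₀]
    linarith
  have hN10 : 10 ≤ N₀ := by omega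
  have hcond : ∃ δ κ, CondN r N₀ δ κ :=
    condN_of_le (n := r) (m := m) (N := N₀) hr (by rw [h2N]; exact hd) hle
  obtain ⟨δ, κ, ⟨hδ, hrδ, hc⟩, hδd⟩ := exists_delta hN10 hcond
  have hd2 : 2 * N₀ < (d + 2) * (d + 3) := by
    rw [h2N]
    nlinarith
  refine master_n (B := δ * d + 2 * N₀) h𝓘 hδ hrδ ht hj hR (hsz.trans h2N.symm) hc
    (hδd d hd2) (by omega) ?_ (hK _) h2N.le
  intro u hu
  have hδ1 : 1 ≤ δ * δ := Nat.mul_pos (by omega) (by omega)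
  have h1 : u ≤ 2 * N₀ := by
    have h2 : 1 * u * 1 ≤ δ * δ * u * (u + 1) :=
      Nat.mul_le_mul (Nat.mul_le_mul_right _ hδ1) (by omega)
    omega
  omega

end Pool.Agent.H932R7
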