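import Mathlib
import Pool.Agent.H15.G.R_seed8.H932R7.Stubs

set_option autoImplicit false

namespace Pool.Agent.H932R7

open Polynomial Pool.Agent.H932R2 Pool.Agent.H932R3

theorem T_SUBST : P_SUBST := by
  intro K _ c γ g w f hf
  have h := Ideal.mem_map_of_mem (Polynomial.compRingHom (C g * X : K[X][X])) hf
  have hle : (cIdeal (fun _ : Fin 1 => c) (g * γ) w).map
      (Polynomial.compRingHom (C g * X : K[X][X])) ≤ cIdeal (fun _ : Fin 1 => c) γ w := by
    unfold cIdeal
    rw [Ideal.map_pow]
    refine Ideal.pow_right_mono ?_ w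
    rw [Ideal.map_span, Ideal.span_le]
    rintro _ ⟨F, hF, rfl⟩
    rcases hF with rfl | hF
    · have h1 : Polynomial.compRingHom (C g * X : K[X][X]) (X - C (g * γ) : K[X][X]) =
          C g * (X - C γ) := by
        rw [Polynomial.coe_compRingHom_apply, sub_comp, X_comp, C_comp, C_mul]
        ring
      rw [h1]
      exact Ideal.mul_mem_left _ _ (Ideal.subset_span (Or.inl rfl))
    · rw [Set.mem_singleton_iff] at hF
      subst hF
      rw [Polynomial.coe_compRingHom_apply, C_comp]
      exact Ideal.subset_span (Or.inr rfl)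
  have h2 := hle h
  rwa [Polynomial.coe_compRingHom_apply] at h2

end Pool.Agent.H932R7
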