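import Mathlib
import Pool.Agent.H15.G.R_seed8.H932R7.Stubs

/-! Task TRAP (helper265): compression of a trapezoid. -/

set_option autoImplicit false

namespace Pool.Agent.H932R7

open Polynomial Pool.Agent.H932R2 Pool.Agent.H932R3

theorem TRAPh.aux (s t κ q d i : ℕ) (hi : i < (s + 2 * κ) * d + t) :
    ∃ a, a + q ≤ q + d ∧ (s + κ) * a ≤ i ∧
      i + (s + κ) * q < s * (q + d) + t + κ * (q + d) + κ * a := by
  rcases Nat.lt_or_ge i ((s + κ) * d) with h | h
  · have hρ : 0 < s + κ := by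
      rcases Nat.eq_zero_or_pos (s + κ) with h0 | h0
      · rw [h0, zero_mul] at h; omega
      · exact h0
    have ha : i / (s + κ) < d := by
      rw [Nat.div_lt_iff_lt_mul hρ, mul_comm]; exact h
    refine ⟨i / (s + κ), by omega, Nat.mul_div_le i (s + κ), ?_⟩
    have h1 : i < (s + κ) * (i / (s + κ)) + (s + κ) := Nat.lt_mul_div_succ i hρ
    obtain ⟨e, he⟩ : ∃ e, d = i / (s + κ) + 1 + e := ⟨d - (i / (s + κ) + 1), by omega⟩
    set a := i / (s + κ) with haa
    rw [he]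
    nlinarith [Nat.zero_le (s * e), Nat.zero_le (κ * e), Nat.zero_le (κ * a)]
  · refine ⟨d, by omega, h, ?_⟩
    nlinarith

theorem T_TRAP : P_TRAP := by
  intro k s t κ B hkB p hp
  obtain ⟨i, q⟩ := p
  rw [Finset.mem_coe, Zt, mem_rowsF] at hp
  obtain ⟨hq, hi⟩ := hp
  obtain ⟨d, hd⟩ : ∃ d, k = q + d + 1 := ⟨k - 1 - q, by omega⟩
  have hkd : k - 1 - q = d := by omega
  have hk1 : k - 1 = q + d := by omega
  rw [hkd] at hi
  obtain ⟨a, ha1, ha2, ha3⟩ := TRAPh.aux s t κ q d i hi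
  refine ⟨fun j => a + j, ?_, ?_⟩
  · intro x y hxy
    exact Fin.ext (Nat.add_left_cancel hxy)
  · intro j
    have hj : (j : ℕ) ≤ q := Nat.lt_succ_iff.1 j.2
    have h1 : (s + κ) * (a + (j : ℕ)) ≤ i + (s + κ) * q := by
      have := Nat.mul_le_mul_left (s + κ) hj
      rw [mul_add]; omega
    refine ⟨show a + (j : ℕ) ≤ B by omega, h1, ?_⟩
    rw [Finset.mem_coe, Zt, mem_rowsF]
    refine ⟨show a + (j : ℕ) < k by omega, ?_⟩
    rw [hk1]
    obtain ⟨e, he⟩ : ∃ e, q + d = (a + (j : ℕ)) + e := ⟨q + d - (a + j), by omega⟩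
    have he2 : q + d - (a + (j : ℕ)) = e := by omega
    rw [he2]
    show i + (s + κ) * q - (s + κ) * (a + (j : ℕ)) < s * e + (t + κ * (q + d))
    have h2 : s * (q + d) = s * (a + (j : ℕ)) + s * e := by rw [he, mul_add]
    have h3 : κ * a ≤ κ * (a + (j : ℕ)) := Nat.mul_le_mul_left _ (by omega)
    have h4 : (s + κ) * (a + (j : ℕ)) = s * (a + (j : ℕ)) + κ * (a + (j : ℕ)) := add_mul _ _ _
    omega

end Pool.Agent.H932R7
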