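import Mathlib
import Pool.Agent.H15.G.R_seed8.H932R7.Stubs

set_option autoImplicit false

namespace Pool.Agent.H932R7

open Polynomial Pool.Agent.H932R2 Pool.Agent.H932R3

theorem T_UNIT : P_UNIT := by
  intro K _ c γ g w k F hg hF
  have hcI : cIdeal (fun _ : Fin 1 => c) γ w =
      (Ideal.span {X - C γ, C (X - C c)}) ^ w := by
    simp [cIdeal, rootPoly_const]
  rw [hcI] at hF ⊢
  set I : Ideal K[X][X] := Ideal.span {X - C γ, C (X - C c)} with hI
  obtain ⟨q, hq⟩ := X_sub_C_dvd_sub_C_eval (p := g ^ k) (a := c)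
  have he : (g ^ k).eval c ≠ 0 := by
    rw [eval_pow]
    exact pow_ne_zero k hg
  set e := (g ^ k).eval c with hedef
  have hgk : g ^ k = C e + (X - C c) * q := by rw [← hq]; ring
  have hcop : IsCoprime (C (g ^ k) : K[X][X]) (C ((X - C c))) := by
    refine ⟨C (C e⁻¹), - C (C e⁻¹ * q), ?_⟩
    rw [hgk]
    have h1 : (C (C e⁻¹ * C e) : K[X][X]) = 1 := by
      rw [← C_mul, inv_mul_cancel₀ he, C_1, C_1]
    simp only [map_add, map_mul] at h1 ⊢
    linear_combination h1
  have hcop2 : IsCoprime (C (g ^ k) : K[X][X]) ((C ((X - C c))) ^ w) := hcop.pow_right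
  obtain ⟨p, r, hpr⟩ := hcop2
  have hF2 : F = p * (C (g ^ k) * F) + r * (C (X - C c)) ^ w * F := by
    calc F = (p * C (g ^ k) + r * (C (X - C c)) ^ w) * F := by rw [hpr, one_mul]
      _ = _ := by ring
  rw [hF2]
  refine Ideal.add_mem _ (Ideal.mul_mem_left _ _ hF) ?_
  refine Ideal.mul_mem_right _ _ (Ideal.mul_mem_left _ _ ?_)
  refine Ideal.pow_mem_pow ?_ _
  exact Ideal.subset_span (by simp)

end Pool.Agent.H932R7
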