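import Mathlib
import Pool.Agent.H15.G.R_seed8.H932R7.All
import Pool.Agent.H15.G.R_seed8.H932R7.Ch
import Pool.Agent.H15.G.R_seed8.H932R7.TRK
import Pool.Agent.H15.G.R_seed8.H932R7.TTRAP
import Pool.Agent.H15.G.R_seed8.H932R7.TCARDS
import Pool.Agent.H15.G.R_seed8.H932R7.TUNIT
import Pool.Agent.H15.G.R_seed8.H932R7.TSUBST
import Pool.Agent.H15.G.R_seed8.H932R7.TDIV
import Pool.Agent.H15.G.R_seed8.H932R7.TSTAB
import Pool.Agent.H15.G.R_seed8.H932R7.THOP
import Pool.Agent.H15.G.R_seed8.H932R7.TMAST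
import Pool.Agent.H15.G.R_seed8.H932R7.TBLOCK
import Pool.Agent.H15.G.R_seed8.H932R7.TSW
import Pool.Agent.H15.G.R_seed8.H932R7.TINDF
import Pool.Agent.H15.G.R_seed8.H932R7.TRANKS
import Pool.Agent.H15.G.R_seed8.H932R7.TFIN
import Pool.Agent.H15.G.R_seed8.H932R7.TBLK
import Pool.Agent.H15.G.R_seed8.H932R7.TSTART
import Pool.Agent.H15.G.R_seed8.H932R7.TX
import Pool.Agent.H15.G.R_seed8.H932R7.TR3
import Pool.Agent.H15.G.R_seed8.H932R7.TTR
import Pool.Agent.H15.G.R_seed8.H932R7.TR4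

set_option autoImplicit false

/-!
# Arbitrary bounded multiplicities: the main theorem

`n` general points of the plane over a field of characteristic zero with arbitrary multiplicities
`w i ≤ m`. The tasks were proved by the seats named in `departures/helper932.md`.
-/

namespace Pool.Agent.H932R7

open Polynomial Pool.Agent.H932R2 Pool.Agent.H932R3

theorem t_block : P_BLOCK := T_BLOCK T_RK T_UNIT T_SUBST T_DIV T_CARDS

theorem t_ranks : P_RANKS :=
  T_RANKS T_STAB (T_IND T_STAB T_TRAP T_CARDS t_block T_SPLIT)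
    (T_FULL T_STAB T_TRAP T_CARDS t_block T_SPLIT) T_MAST T_WST

theorem t_x : P_X := T_X T_STAB T_CH (T_BLK T_RK T_UNIT T_SUBST T_DIV) T_SPLIT

theorem t_r4 : P_R4 := T_R4 t_ranks (T_R3 T_STAB T_START t_x) (T_TR T_RK)

/-- The main theorem. -/
theorem bounded (L : Type) [Field L] [CharZero L] {n : ℕ} {w : Fin n → ℕ} {m : ℕ} (hm : 0 < m)
    (hw : ∀ a, w a ≤ m) :
    ∃ F : MvPolynomial (Fin n × Fin 2) ℚ, F ≠ 0 ∧ ∀ P : Fin n → Fin 2 → L,
      MvPolynomial.aeval (fun ij : Fin n × Fin 2 => P ij.1 ij.2) F ≠ 0 →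
        ∀ d : ℕ, ((m : ℝ) * (m + 1) * (m + 6 * Real.sqrt m + 10) ≤
            ((max ((d + 1) * (d + 2)) (∑ i, (w i + 1).choose 2) : ℕ) : ℝ) ∧
          ((∑ i ∈ Finset.univ.filter (fun i => w i ≠ 1), (w i + 1).choose 2
                + 2 * (m + 1).choose 3 ≤ (d + 2).choose 2 ∨
            (d + 2).choose 2 + 2 * (m + 1).choose 3 ≤ ∑ i, (w i + 1).choose 2) ∨
            ∃ k : ℕ, 0 < k ∧ (∀ i, w i ≤ 1 ∨ k ≤ w i) ∧
              2 * (m * (m + 1) * (m + 2)) + k * (k + 1) ≤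
                (Finset.univ.filter fun i => w i = k).card * (k * (k + 1)))) →
          ExpDim L w P d := by
  obtain ⟨F, hF, hF'⟩ := fin_all (T_FIN t_ranks T_HOP) t_ranks T_HOP T_RK t_r4 L n w m hm hw
  exact ⟨F, hF, fun P hP d hd => hF' P hP d hd.1 hd.2⟩

end Pool.Agent.H932R7
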